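import Pool.Agent.H82.NS.Int
import Pool.Agent.H82.NS.Q0alg

/-! # [H97 SI TRA] ALL OF SIEGEL: polynomials over the ultrapower and sequences of polynomials

A sequence of polynomials of bounded degree is a polynomial over the ring `ℕ → R`; `clH R : (ℕ → R) →+* Ult R` (surjective), `evN R N : (ℕ → R) →+* R`.
* `eq1`: compare coefficients: only finitely many `i` (`i ≤` the degrees of `P`, `Q`) matter; `cl_eq`; `Filter.eventually_all_finset`.
* `eq2`: the same for the coefficients in `(ℕ → R)[X]`, with `eq1`.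
* `seq1`: `P = ∑_(i ≤ d) C (fun N => (a N).coeff i) X^i`; `seq2`: `P = ∑_(j ≤ d) C (P_j) X^j` with `P_j` from `seq1`.
* `q0_den`: `c = cl f`, `Small H f`: `b = cl (fun N => (f N).den)`, `b c = cl (fun N => (f N).num)`.
* `zs_rep`: `z = cl (fun N => (a N : ℚ))` with `a N ∈ ℤ` and `z = cl f`, `Small H f`; put `a' N = a N` if `(a N : ℚ) = f N` and `0` otherwise. -/

namespace Pool.Agent.H97.SI

open Filter Finset Polynomial Pool.Agent.H82.NS

/-- the class of a sequence as ring homomorphism -/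
noncomputable def clH (R : Type*) [CommRing R] : (ℕ → R) →+* Ult R where
  toFun := cl
  map_one' := rfl
  map_zero' := rfl
  map_mul' _ _ := rfl
  map_add' _ _ := rfl

/-- the member `N` -/
def evN (R : Type*) [CommRing R] (N : ℕ) : (ℕ → R) →+* R := Pi.evalRingHom (fun _ => R) N

variable {R : Type*} [CommRing R]

theorem clH_surj : Function.Surjective (clH R) := by
  intro z
  obtain ⟨f, hf⟩ := cl_surj z
  exact ⟨f, hf.symm⟩

theorem eq1 {P Q : (ℕ → R)[X]} :
    P.map (clH R) = Q.map (clH R) ↔ ∀ᶠ N in UU, P.map (evN R N) = Q.map (evN R N) := by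
  constructor
  · intro h
    have h1 : ∀ i, ∀ᶠ N in UU, P.coeff i N = Q.coeff i N := by
      intro i
      have h2 := congrArg (fun p => p.coeff i) h
      simp only [coeff_map] at h2
      exact cl_eq.mp h2
    have h2 : ∀ᶠ N in UU, ∀ i ∈ P.support ∪ Q.support, P.coeff i N = Q.coeff i N :=
      (Filter.eventually_all_finset _).mpr fun i _ => h1 i
    filter_upwards [h2] with N hN
    ext i
    rw [coeff_map, coeff_map]
    show P.coeff i N = Q.coeff i N
    by_cases hi : i ∈ P.support ∪ Q.support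
    · exact hN i hi
    · rw [Finset.mem_union, not_or, notMem_support_iff, notMem_support_iff] at hi
      rw [hi.1, hi.2]
  · intro h
    ext i
    rw [coeff_map, coeff_map]
    show cl (P.coeff i) = cl (Q.coeff i)
    rw [cl_eq]
    filter_upwards [h] with N hN
    have h2 := congrArg (fun p => p.coeff i) hN
    simp only [coeff_map] at h2
    exact h2

theorem eq2 {P Q : (ℕ → R)[X][X]} : P.map (mapRingHom (clH R)) = Q.map (mapRingHom (clH R)) ↔
    ∀ᶠ N in UU, P.map (mapRingHom (evN R N)) = Q.map (mapRingHom (evN R N)) := by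
  constructor
  · intro h
    have h1 : ∀ i, ∀ᶠ N in UU, (P.coeff i).map (evN R N) = (Q.coeff i).map (evN R N) := by
      intro i
      have h2 := congrArg (fun p => p.coeff i) h
      simp only [coeff_map, coe_mapRingHom] at h2
      exact eq1.mp h2
    have h2 : ∀ᶠ N in UU, ∀ i ∈ P.support ∪ Q.support, (P.coeff i).map (evN R N) = (Q.coeff i).map (evN R N) :=
      (Filter.eventually_all_finset _).mpr fun i _ => h1 i
    filter_upwards [h2] with N hN
    refine Polynomial.ext fun i => ?_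
    rw [coeff_map, coeff_map, coe_mapRingHom]
    by_cases hi : i ∈ P.support ∪ Q.support
    · exact hN i hi
    · rw [Finset.mem_union, not_or, notMem_support_iff, notMem_support_iff] at hi
      rw [hi.1, hi.2]
  · intro h
    refine Polynomial.ext fun i => ?_
    rw [coeff_map, coeff_map, coe_mapRingHom]
    rw [eq1]
    filter_upwards [h] with N hN
    have h2 := congrArg (fun p => p.coeff i) hN
    simp only [coeff_map, coe_mapRingHom] at h2
    exact h2

theorem seq1 (a : ℕ → R[X]) (d : ℕ) (h : ∀ N, (a N).natDegree ≤ d) :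
    ∃ P : (ℕ → R)[X], ∀ N, P.map (evN R N) = a N := by
  refine ⟨∑ i ∈ range (d + 1), C (fun N => (a N).coeff i) * X ^ i, fun N => ?_⟩
  rw [Polynomial.map_sum]
  simp only [Polynomial.map_mul, map_C, Polynomial.map_pow, map_X]
  conv_rhs => rw [(a N).as_sum_range_C_mul_X_pow' (Nat.lt_succ_of_le (h N))]
  rfl

theorem seq2 (a : ℕ → R[X][X]) (d : ℕ) (h : ∀ N, (a N).natDegree ≤ d)
    (h' : ∀ N j, ((a N).coeff j).natDegree ≤ d) :
    ∃ P : (ℕ → R)[X][X], ∀ N, P.map (mapRingHom (evN R N)) = a N := by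
  choose p hp using fun j => seq1 (fun N => (a N).coeff j) d (fun N => h' N j)
  refine ⟨∑ i ∈ range (d + 1), C (p i) * X ^ i, fun N => ?_⟩
  rw [Polynomial.map_sum]
  simp only [Polynomial.map_mul, map_C, Polynomial.map_pow, map_X, coe_mapRingHom, hp]
  conv_rhs => rw [(a N).as_sum_range_C_mul_X_pow' (Nat.lt_succ_of_le (h N))]

/-- values of polynomials in two variables -/
theorem ev_cl (P : (ℕ → R)[X][X]) (a b : ℕ → R) :
    evalEval (cl a) (cl b) (P.map (mapRingHom (clH R))) =
      cl fun N => evalEval (a N) (b N) (P.map (mapRingHom (evN R N))) := by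
  have h : ∀ {T : Type _} [CommRing T] (f : (ℕ → R) →+* T),
      evalEval (f a) (f b) (P.map (mapRingHom f)) = f (evalEval a b P) := by
    intro T _ f
    have := map_mapRingHom_eval_map_eval f P (q := C b) (r := a)
    rw [map_C] at this
    exact this
  have h1 := h (clH R)
  have h2 : (fun N => evalEval (a N) (b N) (P.map (mapRingHom (evN R N)))) = evalEval a b P := by
    funext N
    exact h (evN R N)
  rw [h2]
  exact h1

theorem q0_den (H : ℕ → ℕ) (c : Q0 H) : ∃ b : Q0 H, b ≠ 0 ∧ (b : QS) ∈ ZS ∧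
    ((b * c : Q0 H) : QS) ∈ ZS := by
  obtain ⟨c, f, hf, rfl⟩ := c
  have hs : Small H (fun N => ((f N).den : ℚ)) := by
    obtain ⟨C, hC⟩ := hf
    refine ⟨C, fun N => ?_⟩
    obtain ⟨h1, h2⟩ := hC N
    refine ⟨?_, ?_⟩
    · simpa using h2
    · simpa using Nat.one_le_pow _ _ (by omega)
  refine ⟨⟨cl (fun N => ((f N).den : ℚ)), _, hs, rfl⟩, ?_, ?_, ?_⟩
  · intro h0
    have h1 : cl (fun N => ((f N).den : ℚ)) = cl (fun _ => 0) := congrArg Subtype.val h0
    rw [cl_eq] at h1
    obtain ⟨N, hN⟩ := h1.exists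
    exact (f N).den_pos.ne' (by exact_mod_cast hN)
  · refine ⟨cl (fun N => ((f N).den : ℤ)), ?_⟩
    rw [germMap_cl]
    show cl _ = cl _
    congr 1
  · refine ⟨cl (fun N => (f N).num), ?_⟩
    rw [germMap_cl]
    show cl _ = cl (fun N => ((f N).den : ℚ)) * cl f
    rw [cl_mul]
    congr 1
    funext N
    rw [Rat.den_mul_eq_num]
    rfl

theorem zs_rep (H : ℕ → ℕ) {z : QS} (hz : z ∈ ZS) (h0 : z ∈ Q0 H) : ∃ (C : ℕ) (a : ℕ → ℤ),
    z = cl (fun N => (a N : ℚ)) ∧ ∀ N, |a N| ≤ ((H N + 2 : ℕ) : ℤ) ^ C := by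
  obtain ⟨y, hy⟩ := hz
  obtain ⟨a, rfl⟩ := cl_surj y
  obtain ⟨f, ⟨C, hC⟩, hf⟩ := h0
  rw [germMap_cl] at hy
  refine ⟨C, fun N => if (a N : ℚ) = f N then a N else 0, ?_, ?_⟩
  · rw [← hy]
    have h1 : cl (fun N => (a N : ℚ)) = cl f := by
      rw [← hf, ← hy]
      rfl
    rw [cl_eq] at h1
    rw [cl_eq]
    filter_upwards [h1] with N hN
    rw [if_pos hN]
    rfl
  · intro N
    show |if (a N : ℚ) = f N then a N else 0| ≤ _
    by_cases h : (a N : ℚ) = f N
    · rw [if_pos h]
      have h1 := (hC N).1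
      rw [← h] at h1
      rw [Rat.num_intCast] at h1
      rw [Int.abs_eq_natAbs]
      exact_mod_cast h1
    · rw [if_neg h]
      simp
      positivity

end Pool.Agent.H97.SI
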