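import Mathlib

/-! # [H97 SI IRL] ALL OF SIEGEL: irreducibility over an extension in which the field is algebraically closed

`k ⊆ K` fields, `k` infinite, every element of `K` algebraic over `k` is in `k` (`hk`).
`fac1`: `P ∈ k[X]` monic, `P = A B` over `K`, `A` monic: the coefficients of `A` are in `k`: the roots of `A` in an algebraic closure of `K` are roots of `P`,
so algebraic over `k`, the coefficients of `A` are polynomials in them (Mathlib: `Polynomial.isIntegral_coeff_of_dvd`-type lemma: for monic `P` with integral coefficients and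
a monic divisor: `IsIntegral` of the coefficients, e.g. `integralClosure.mem_lifts_of_monic_of_dvd_map`, `IsIntegrallyClosed.eq_map_mul_C_of_dvd`).
`fac2`: `G ∈ k[X][W]` monic in `W`, `G = A B` over `K[X]`, `A, B` monic: every coefficient `c ∈ K[X]` of `A` is in the image of `k[X]`: for `e ∈ k` the polynomials
`G(e, W) = A(e, W) B(e, W)` (monic) satisfy `fac1`, so `c(e) ∈ k` for all `e ∈ k`; `c` is the Lagrange interpolation polynomial at `deg c + 1` elements of
the infinite field `k` (`Lagrange.eq_interpolate`, `Lagrange.interpolate` with nodes and values in `k`, mapped to `K`), so `c ∈ k[X]`. -/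

namespace Pool.Agent.H97.SI

open Finset Polynomial

/-- a polynomial with coefficients in `k` lifts -/
private theorem irl_lift {k K : Type*} [Field k] [Field K] [Algebra k K] {A : K[X]}
    (h : ∀ n, ∃ c : k, algebraMap k K c = A.coeff n) :
    ∃ A' : k[X], A'.map (algebraMap k K) = A := by
  have h1 : A ∈ lifts (algebraMap k K) := by
    rw [lifts_iff_coeff_lifts]
    intro n
    obtain ⟨c, hc⟩ := h n
    exact ⟨c, hc⟩
  obtain ⟨A', hA'⟩ := (mem_lifts _).1 h1
  exact ⟨A', hA'⟩

theorem fac1 {k K : Type*} [Field k] [Field K] [Algebra k K]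
    (hk : ∀ z : K, IsAlgebraic k z → ∃ c : k, algebraMap k K c = z) {P : k[X]} (hP : P.Monic)
    {A B : K[X]} (hA : A.Monic) (hAB : P.map (algebraMap k K) = A * B) :
    ∃ A' : k[X], A'.Monic ∧ A'.map (algebraMap k K) = A := by
  have h1 : A ∣ P.map (algebraMap k K) := Dvd.intro _ hAB.symm
  have h2 := integralClosure.mem_lifts_of_monic_of_dvd_map K hP hA h1
  rw [lifts_iff_coeff_lifts] at h2
  obtain ⟨A', hA'⟩ := irl_lift (k := k) (A := A) (fun n => by
    obtain ⟨y, hy⟩ := h2 n
    have h3 : IsIntegral k (A.coeff n) := by
      rw [← hy]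
      exact y.2
    exact hk _ h3.isAlgebraic)
  refine ⟨A', ?_, hA'⟩
  rw [← hA'] at hA
  exact (monic_map_iff).1 hA

/-- a polynomial with values in `k` at the elements of the infinite field `k` has coefficients in `k` -/
private theorem irl_interp {k K : Type*} [Field k] [Infinite k] [Field K] [Algebra k K] {c : K[X]}
    (h : ∀ e : k, ∃ z : k, algebraMap k K z = c.eval (algebraMap k K e)) :
    ∃ c' : k[X], c'.map (algebraMap k K) = c := by
  classical
  obtain ⟨s, hs⟩ := Infinite.exists_subset_card_eq k (c.natDegree + 1)
  choose v hv using h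
  refine ⟨Lagrange.interpolate s id v, ?_⟩
  have hinj : Set.InjOn (id : k → k) s := fun a _ b _ hab => hab
  have h1 : (Lagrange.interpolate s id v).degree < s.card := Lagrange.degree_interpolate_lt v hinj
  have h2 : ((Lagrange.interpolate s id v).map (algebraMap k K)).degree < s.card := by
    rw [degree_map]; exact h1
  have h3 : c.degree < s.card := by
    rw [hs]
    exact lt_of_le_of_lt degree_le_natDegree (by exact_mod_cast Nat.lt_succ_self _)
  refine eq_of_degrees_lt_of_eval_finset_eq (s.image (algebraMap k K)) ?_ ?_ ?_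
  · rw [card_image_of_injective _ (algebraMap k K).injective]; exact h2
  · rw [card_image_of_injective _ (algebraMap k K).injective]; exact h3
  · intro y hy
    obtain ⟨e, he, rfl⟩ := mem_image.1 hy
    rw [eval_map_algebraMap, aeval_algebraMap_apply, ← hv e]
    congr 1
    rw [coe_aeval_eq_eval]
    exact Lagrange.eval_interpolate_at_node v hinj he

theorem fac2 {k K : Type*} [Field k] [Infinite k] [Field K] [Algebra k K]
    (hk : ∀ z : K, IsAlgebraic k z → ∃ c : k, algebraMap k K c = z) {G : k[X][X]} (hG : G.Monic)
    {A B : K[X][X]} (hA : A.Monic) (hB : B.Monic)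
    (hAB : G.map (mapRingHom (algebraMap k K)) = A * B) :
    ∃ A' : k[X][X], A'.Monic ∧ A'.map (mapRingHom (algebraMap k K)) = A := by
  classical
  have hval : ∀ (j : ℕ) (e : k), ∃ z : k, algebraMap k K z = (A.coeff j).eval (algebraMap k K e) := by
    intro j e
    have h1 : (G.map (evalRingHom e)).map (algebraMap k K) =
        A.map (evalRingHom (algebraMap k K e)) * B.map (evalRingHom (algebraMap k K e)) := by
      rw [← Polynomial.map_mul, ← hAB]
      ext n
      rw [coeff_map, coeff_map, coeff_map, coeff_map, coe_evalRingHom, coe_evalRingHom,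
        coe_mapRingHom, eval_map_algebraMap, aeval_algebraMap_apply, coe_aeval_eq_eval]
    obtain ⟨A', hA'1, hA'2⟩ := fac1 hk (hG.map (evalRingHom e)) (hA.map _) h1
    refine ⟨A'.coeff j, ?_⟩
    rw [← coeff_map, hA'2, coeff_map, coe_evalRingHom]
  choose c hc using fun j => irl_interp (hval j)
  have h1 : A ∈ lifts (mapRingHom (algebraMap k K)) := by
    rw [lifts_iff_coeff_lifts]
    intro n
    exact ⟨c n, hc n⟩
  obtain ⟨A', hA'⟩ := (mem_lifts _).1 h1
  refine ⟨A', ?_, hA'⟩
  have hinj : Function.Injective (mapRingHom (algebraMap k K)) := by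
    rw [coe_mapRingHom]
    exact map_injective _ (algebraMap k K).injective
  rw [← hA'] at hA
  exact monic_of_injective hinj hA

end Pool.Agent.H97.SI
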