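import Pool.Agent.H97.SI.TRA
import Pool.Agent.H97.SI.IRL

/-! # [H97 SI TRB] ALL OF SIEGEL: irreducibility passes to almost all members

`irrm2`: suppose not; `UU` is an ultrafilter, so for `UU`-almost all `N` there are monic `A_N, B_N ∈ ℚ[X][X]`, both `≠ 1` (so of degree `≥ 1`), with
`A_N B_N = G_N`. Their degrees in the outer variable are at most `𝒢.natDegree`, in the inner variable at most that of `G_N` (`Bivariate.swap`,
`natDegree_mul` over `ℚ[X]`), bounded by a constant. `natDegree A_N` takes finitely many values, so it is a constant `a ≥ 1` for `UU`-almost all `N`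
(ultrafilter: `Ultrafilter.eventually_exists..` or finite union), the same for `B_N`: `b ≥ 1`. Put `A_N = B_N = 1` for the other `N`; `seq2`: `𝒜, ℬ`;
`A* = 𝒜.map (clH)`, `B*`: `A* B* = G` over `QS` (`eq2`), monic of degree `a`, `b` (coefficients: `eq1`-type arguments for `coeff`). `fac2` with `hk` from `q0_alg`
(`k = Q0 H`, `K = QS`, `algebraMap` = inclusion; `Q0 H` has characteristic zero, so is infinite): `A* = A'.map`, `B* = B'.map`, `A' B' = G` (injectivity), so `A' = 1` or `B' = 1`: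
contradiction to `a, b ≥ 1`. `irrm1`: the same in one variable (`fac1`). -/

namespace Pool.Agent.H97.SI

open Filter Finset Polynomial Pool.Agent.H82.NS

/-- no factorisation into monic polynomials -/
def MIrr {R : Type*} [CommRing R] (G : R[X]) : Prop :=
  ∀ A B : R[X], A.Monic → B.Monic → A * B = G → A = 1 ∨ B = 1

/-- for monic polynomials of positive degree over a domain this is irreducibility (`Polynomial.Monic.irreducible_iff_natDegree'`) -/
theorem mirr_iff {R : Type*} [CommRing R] [IsDomain R] {G : R[X]} (hG : G.Monic)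
    (h1 : 1 ≤ G.natDegree) : MIrr G ↔ Irreducible G := by
  have hG1 : G ≠ 1 := by
    rintro rfl
    rw [natDegree_one] at h1
    omega
  exact (irreducible_of_monic hG hG1).symm

private theorem coeff_swap {R : Type*} [CommRing R] (p : R[X][X]) (i j : ℕ) :
    ((Bivariate.swap p).coeff i).coeff j = (p.coeff j).coeff i := by
  induction p using Polynomial.induction_on' with
  | add p q hp hq => rw [map_add, coeff_add, coeff_add, hp, hq, coeff_add, coeff_add]
  | monomial n f =>
    induction f using Polynomial.induction_on' with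
    | add f g hf hg => rw [map_add, map_add, coeff_add, coeff_add, hf, hg, coeff_add, coeff_add]
    | monomial m r =>
      rw [Bivariate.swap_monomial_monomial, coeff_monomial, coeff_monomial]
      split_ifs with h1 h2 h2
      · subst h1 h2
        rw [coeff_monomial, coeff_monomial, if_pos rfl, if_pos rfl]
      · rw [coeff_monomial, if_neg h2, coeff_zero]
      · rw [coeff_monomial, if_neg h1, coeff_zero]
      · rw [coeff_zero, coeff_zero]

private theorem deg_le_swap {R : Type*} [CommRing R] (p : R[X][X]) (j : ℕ) :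
    (p.coeff j).natDegree ≤ (Bivariate.swap p).natDegree := by
  rw [natDegree_le_iff_coeff_eq_zero]
  intro i hi
  rw [← coeff_swap, coeff_eq_zero_of_natDegree_lt hi, coeff_zero]

private theorem swap_deg_le {R : Type*} [CommRing R] {p : R[X][X]} {d : ℕ}
    (h : ∀ j, (p.coeff j).natDegree ≤ d) : (Bivariate.swap p).natDegree ≤ d := by
  rw [natDegree_le_iff_coeff_eq_zero]
  intro i hi
  ext j
  rw [coeff_swap, coeff_eq_zero_of_natDegree_lt ((h j).trans_lt hi), coeff_zero]

private theorem deg_left {R : Type*} [CommRing R] [IsDomain R] {A B : R[X][X]} (hA : A ≠ 0)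
    (hB : B ≠ 0) {d : ℕ} (h : ∀ j, ((A * B).coeff j).natDegree ≤ d) (j : ℕ) :
    (A.coeff j).natDegree ≤ d := by
  have h1 := swap_deg_le h
  have hinj : Function.Injective (Bivariate.swap (R := R)) := AlgEquiv.injective _
  have hA' : Bivariate.swap A ≠ 0 := fun h0 => hA (hinj (by rw [h0, map_zero]))
  have hB' : Bivariate.swap B ≠ 0 := fun h0 => hB (hinj (by rw [h0, map_zero]))
  rw [map_mul, natDegree_mul hA' hB'] at h1
  exact (deg_le_swap A j).trans (by omega)

private theorem seqm (a : ℕ → ℚ[X][X]) (e d : ℕ) (hm : ∀ N, (a N).Monic)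
    (he : ∀ N, (a N).natDegree = e) (h' : ∀ N j, ((a N).coeff j).natDegree ≤ d) :
    ∃ P : (ℕ → ℚ)[X][X], P.Monic ∧ P.natDegree = e ∧
      ∀ N, P.map (mapRingHom (evN ℚ N)) = a N := by
  obtain ⟨P, hP⟩ := seq2 a (max d e) (fun N => (he N).le.trans (le_max_right _ _))
    (fun N j => (h' N j).trans (le_max_left _ _))
  have hdeg : (∑ j ∈ range e, C (P.coeff j) * X ^ j).degree < (e : WithBot ℕ) := by
    rw [← mem_degreeLT]
    refine Submodule.sum_mem _ fun j hj => ?_
    rw [mem_degreeLT]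
    refine (degree_C_mul_X_pow_le _ _).trans_lt ?_
    exact_mod_cast Finset.mem_range.1 hj
  refine ⟨X ^ e + ∑ j ∈ range e, C (P.coeff j) * X ^ j, monic_X_pow_add hdeg, ?_, fun N => ?_⟩
  · refine natDegree_eq_of_degree_eq_some ?_
    rw [degree_add_eq_left_of_degree_lt (by rw [degree_X_pow]; exact hdeg), degree_X_pow]
  · rw [Polynomial.map_add, Polynomial.map_pow, Polynomial.map_X, Polynomial.map_sum]
    conv_rhs => rw [(a N).as_sum_range_C_mul_X_pow, he N, Finset.sum_range_succ]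
    have h1 : (a N).coeff e = 1 := by
      rw [← he N]
      exact hm N
    rw [h1, C_1, one_mul, add_comm]
    congr 1
    refine Finset.sum_congr rfl fun j _ => ?_
    rw [Polynomial.map_mul, Polynomial.map_pow, Polynomial.map_X, Polynomial.map_C, ← hP N,
      coeff_map]

theorem irrm2 {H : ℕ → ℕ} {G : (Q0 H)[X][X]} (hG : G.Monic) (hi : MIrr G)
    {P : (ℕ → ℚ)[X][X]}
    (hP : P.map (mapRingHom (clH ℚ)) = G.map (mapRingHom (algebraMap (Q0 H) QS))) :
    ∀ᶠ N in UU, MIrr (P.map (mapRingHom (evN ℚ N))) := by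
  classical
  by_contra hcon
  rw [← Ultrafilter.eventually_not] at hcon
  obtain ⟨D1, hD1⟩ : ∃ D1 : ℕ, D1 = P.natDegree := ⟨_, rfl⟩
  obtain ⟨D2, hD2⟩ : ∃ D2 : ℕ, D2 = P.support.sup fun j => (P.coeff j).natDegree := ⟨_, rfl⟩
  have hb : ∀ N j, ((P.map (mapRingHom (evN ℚ N))).coeff j).natDegree ≤ D2 := by
    intro N j
    rw [coeff_map, coe_mapRingHom]
    refine natDegree_map_le.trans ?_
    by_cases hj : j ∈ P.support
    · rw [hD2]
      exact Finset.le_sup (f := fun j => (P.coeff j).natDegree) hj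
    · rw [notMem_support_iff.1 hj, natDegree_zero]
      exact Nat.zero_le _
  have h2 : ∀ᶠ N in UU, ∃ ab : ℕ × ℕ, ab ∈ ((range (D1 + 1) ×ˢ range (D1 + 1) : Finset (ℕ × ℕ)) :
      Set (ℕ × ℕ)) ∧ (∃ A B : ℚ[X][X], A.Monic ∧ B.Monic ∧
        A * B = P.map (mapRingHom (evN ℚ N)) ∧ A ≠ 1 ∧ B ≠ 1 ∧ A.natDegree = ab.1 ∧
          B.natDegree = ab.2) := by
    filter_upwards [hcon] with N hN
    unfold MIrr at hN
    push Not at hN
    obtain ⟨A, B, hA, hB, hAB, hA1, hB1⟩ := hN
    have h3 : A.natDegree + B.natDegree ≤ D1 := by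
      rw [← hA.natDegree_mul hB, hAB, hD1]
      exact natDegree_map_le
    refine ⟨(A.natDegree, B.natDegree), ?_, A, B, hA, hB, hAB, hA1, hB1, rfl, rfl⟩
    rw [Finset.mem_coe, Finset.mem_product, Finset.mem_range, Finset.mem_range]
    constructor
    · show A.natDegree < D1 + 1
      omega
    · show B.natDegree < D1 + 1
      omega
  rw [Ultrafilter.eventually_exists_mem_iff (Finset.finite_toSet _)] at h2
  obtain ⟨⟨a, b⟩, -, h3⟩ := h2
  have h4 : ∀ N, ∃ A B : ℚ[X][X], A.Monic ∧ B.Monic ∧ A.natDegree = a ∧ B.natDegree = b ∧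
      (∀ j, (A.coeff j).natDegree ≤ D2) ∧ (∀ j, (B.coeff j).natDegree ≤ D2) ∧
      ((∃ A B : ℚ[X][X], A.Monic ∧ B.Monic ∧
        A * B = P.map (mapRingHom (evN ℚ N)) ∧ A ≠ 1 ∧ B ≠ 1 ∧ A.natDegree = a ∧
          B.natDegree = b) → A * B = P.map (mapRingHom (evN ℚ N)) ∧ A ≠ 1 ∧ B ≠ 1) := by
    intro N
    by_cases hN : ∃ A B : ℚ[X][X], A.Monic ∧ B.Monic ∧
        A * B = P.map (mapRingHom (evN ℚ N)) ∧ A ≠ 1 ∧ B ≠ 1 ∧ A.natDegree = a ∧
          B.natDegree = b
    · obtain ⟨A, B, hA, hB, hAB, hA1, hB1, ha, hb'⟩ := hN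
      refine ⟨A, B, hA, hB, ha, hb', ?_, ?_, fun _ => ⟨hAB, hA1, hB1⟩⟩
      · exact deg_left hA.ne_zero hB.ne_zero (by rw [hAB]; exact hb N)
      · exact deg_left hB.ne_zero hA.ne_zero (by rw [mul_comm, hAB]; exact hb N)
    · refine ⟨X ^ a, X ^ b, monic_X_pow a, monic_X_pow b, natDegree_X_pow a, natDegree_X_pow b,
        fun j => ?_, fun j => ?_, fun h => absurd h hN⟩
      · rw [coeff_X_pow]
        split_ifs <;> simp
      · rw [coeff_X_pow]
        split_ifs <;> simp
  choose A B hA hB ha hb1 hAd hBd hAB using h4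
  obtain ⟨SA, hSA1, hSA2, hSA3⟩ := seqm A a D2 hA ha hAd
  obtain ⟨SB, hSB1, hSB2, hSB3⟩ := seqm B b D2 hB hb1 hBd
  have h5 : ∀ᶠ N in UU, A N * B N = P.map (mapRingHom (evN ℚ N)) ∧ A N ≠ 1 ∧ B N ≠ 1 := by
    filter_upwards [h3] with N hN
    exact hAB N hN
  -- positive degrees
  obtain ⟨N0, -, hA1, hB1⟩ := h5.exists
  have ha1 : a ≠ 0 := by
    intro h0
    exact hA1 ((hA N0).natDegree_eq_zero.1 (by rw [ha, h0]))
  have hb1' : b ≠ 0 := by
    intro h0
    exact hB1 ((hB N0).natDegree_eq_zero.1 (by rw [hb1, h0]))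
  have h6 : (SA * SB).map (mapRingHom (clH ℚ)) = P.map (mapRingHom (clH ℚ)) := by
    rw [eq2]
    filter_upwards [h5] with N hN
    rw [Polynomial.map_mul, hSA3, hSB3]
    exact hN.1
  rw [hP, Polynomial.map_mul] at h6
  have hk : ∀ z : QS, IsAlgebraic (Q0 H) z → ∃ c : Q0 H, algebraMap (Q0 H) QS c = z :=
    fun z hz => ⟨⟨z, q0_alg H z hz⟩, rfl⟩
  have _ : CharZero QS := IsStrictOrderedRing.toCharZero
  have _ : CharZero (Q0 H) := (Q0 H).subtype.charZero
  have _ : Infinite (Q0 H) := Infinite.of_injective (fun n : ℕ => (n : Q0 H)) Nat.cast_injective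
  obtain ⟨A', hA'm, hA'⟩ := fac2 hk hG (hSA1.map _) (hSB1.map _) h6.symm
  obtain ⟨B', hB'm, hB'⟩ := fac2 hk hG (hSB1.map _) (hSA1.map _)
    (h6.symm.trans (mul_comm _ _))
  have hinj : Function.Injective (Polynomial.map (mapRingHom (algebraMap (Q0 H) QS))) := by
    refine Polynomial.map_injective _ ?_
    rw [coe_mapRingHom]
    exact Polynomial.map_injective _ (algebraMap (Q0 H) QS).injective
  have hG' : A' * B' = G := by
    apply hinj
    rw [Polynomial.map_mul, hA', hB', h6]
  have hda : A'.natDegree = a := by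
    rw [← hSA2, ← hSA1.natDegree_map (mapRingHom (clH ℚ)), ← hA', hA'm.natDegree_map]
  have hdb : B'.natDegree = b := by
    rw [← hSB2, ← hSB1.natDegree_map (mapRingHom (clH ℚ)), ← hB', hB'm.natDegree_map]
  rcases hi A' B' hA'm hB'm hG' with h | h
  · rw [h, natDegree_one] at hda
    exact ha1 hda.symm
  · rw [h, natDegree_one] at hdb
    exact hb1' hdb.symm

theorem irrm1 {H : ℕ → ℕ} {G : (Q0 H)[X]} (hG : G.Monic) (hi : MIrr G) {P : (ℕ → ℚ)[X]}
    (hP : P.map (clH ℚ) = G.map (algebraMap (Q0 H) QS)) :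
    ∀ᶠ N in UU, MIrr (P.map (evN ℚ N)) := by
  have h1 : MIrr (G.map (C : Q0 H →+* (Q0 H)[X])) := by
    intro A B hA hB hAB
    have h2 := congrArg (Bivariate.swap (R := Q0 H)) hAB
    have hinj : Function.Injective (Bivariate.swap (R := Q0 H)) := AlgEquiv.injective _
    have hA' : Bivariate.swap A ≠ 0 := fun h0 => hA.ne_zero (hinj (by rw [h0, map_zero]))
    have hB' : Bivariate.swap B ≠ 0 := fun h0 => hB.ne_zero (hinj (by rw [h0, map_zero]))
    rw [map_mul, Bivariate.swap_map_C] at h2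
    have h3 := congrArg natDegree h2
    rw [natDegree_mul hA' hB', natDegree_C] at h3
    have h4 : A = ((Bivariate.swap A).coeff 0).map C := by
      have h5 := eq_C_of_natDegree_eq_zero (p := Bivariate.swap A) (by omega)
      rw [← Bivariate.swap_C, ← h5, Bivariate.swap_swap_apply]
    have h4' : B = ((Bivariate.swap B).coeff 0).map C := by
      have h5 := eq_C_of_natDegree_eq_zero (p := Bivariate.swap B) (by omega)
      rw [← Bivariate.swap_C, ← h5, Bivariate.swap_swap_apply]
    have hCi : Function.Injective (C : Q0 H →+* (Q0 H)[X]) := C_injective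
    obtain ⟨α, hα⟩ : ∃ α, α = (Bivariate.swap A).coeff 0 := ⟨_, rfl⟩
    obtain ⟨β, hβ⟩ : ∃ β, β = (Bivariate.swap B).coeff 0 := ⟨_, rfl⟩
    rw [← hα] at h4
    rw [← hβ] at h4'
    rw [h4] at hA
    rw [h4'] at hB
    have h6 : α * β = G := by
      apply Polynomial.map_injective _ hCi
      rw [Polynomial.map_mul, ← h4, ← h4', hAB]
    rcases hi α β (hCi.monic_map_iff.2 hA) (hCi.monic_map_iff.2 hB) h6 with h | h
    · left
      rw [h4, h, Polynomial.map_one]
    · right
      rw [h4', h, Polynomial.map_one]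
  have h2 : (P.map (C : (ℕ → ℚ) →+* (ℕ → ℚ)[X])).map (mapRingHom (clH ℚ)) =
      (G.map (C : Q0 H →+* (Q0 H)[X])).map (mapRingHom (algebraMap (Q0 H) QS)) := by
    have e1 : (mapRingHom (clH ℚ)).comp (C : (ℕ → ℚ) →+* (ℕ → ℚ)[X]) =
        (C : QS →+* QS[X]).comp (clH ℚ) := RingHom.ext fun x => by simp
    have e2 : (mapRingHom (algebraMap (Q0 H) QS)).comp (C : Q0 H →+* (Q0 H)[X]) =
        (C : QS →+* QS[X]).comp (algebraMap (Q0 H) QS) := RingHom.ext fun x => by simp
    rw [Polynomial.map_map, Polynomial.map_map, e1, e2, ← Polynomial.map_map,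
      ← Polynomial.map_map, hP]
  filter_upwards [irrm2 (hG.map _) h1 h2] with N hN A B hA hB hAB
  have e3 : (mapRingHom (evN ℚ N)).comp (C : (ℕ → ℚ) →+* (ℕ → ℚ)[X]) =
      (C : ℚ →+* ℚ[X]).comp (evN ℚ N) := RingHom.ext fun x => by simp
  have h3 : A.map (C : ℚ →+* ℚ[X]) * B.map (C : ℚ →+* ℚ[X]) =
      (P.map (C : (ℕ → ℚ) →+* (ℕ → ℚ)[X])).map (mapRingHom (evN ℚ N)) := by
    rw [Polynomial.map_map, e3, ← Polynomial.map_map, ← hAB, Polynomial.map_mul]
  have hCi : Function.Injective (C : ℚ →+* ℚ[X]) := C_injective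
  rcases hN _ _ (hA.map _) (hB.map _) h3 with h | h
  · left
    apply Polynomial.map_injective _ hCi
    rw [h, Polynomial.map_one]
  · right
    apply Polynomial.map_injective _ hCi
    rw [h, Polynomial.map_one]

end Pool.Agent.H97.SI
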