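import Pool.Agent.H97.SI.RGB

/-! # [H97 SI SCL] ALL OF SIEGEL: scaling of `w`

`G' = scaleRoots G (C δ)`: `G'.coeff j = G.coeff j * (C δ)^(D - j)`, monic of degree `D`, the same weights, and for every `f ∈ k[X][X]`
`f_δ := ∑ j, C (f.coeff j) * (C (C δ⁻¹) * X)^j` (`f.comp (C (C δ⁻¹) * X)`) satisfies `ev x (δ w) f_δ = ev x w f`; so `M.min` for `G'`: if
`ev x (δ w) f = 0`, then `ev x w (f.comp (C (C δ) * X)) = 0`, of the same degree, so it is `0`, so `f = 0` (compose back).
`G'(x, δ w) = δ^D G(x, w)` (`Polynomial.scaleRoots_eval₂_mul`). `lf κ G' = scaleRoots (lf κ G) δ`: coefficients (`lf κ G` has degree `D`: `lead_monic`).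
`three_scale`: roots `i δ * a` (`scaleRoots_eval₂_mul`). -/

namespace Pool.Agent.H97.SI

open Finset Polynomial Pool.Agent.H37.SI

private theorem scl_lf_coeff {k : Type*} [Field k] (κ : ℕ) (G : k[X][X]) (j : ℕ) :
    (lf κ G).coeff j = if j ∈ range (G.natDegree + 1) then
      (G.coeff j).coeff (κ * (G.natDegree - j)) else 0 := by
  unfold lf
  rw [finset_sum_coeff]
  simp_rw [coeff_C_mul_X_pow]
  rw [Finset.sum_ite_eq]

theorem model_scale {k K : Type*} [Field k] [Field K] [Algebra k K] {x w : K} {κ : ℕ}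
    {G : k[X][X]} (M : Model x w κ G) {δ : k} (hδ : δ ≠ 0) :
    ∃ G' : k[X][X], Model x (algebraMap k K δ * w) κ G' ∧ G'.natDegree = G.natDegree ∧
      lf κ G' = scaleRoots (lf κ G) δ := by
  have hd : (scaleRoots G (C δ)).natDegree = G.natDegree := natDegree_scaleRoots _ _
  have hφ : (aeval x : k[X] →ₐ[k] K).toRingHom (C δ) = algebraMap k K δ := aeval_C _ _
  refine ⟨scaleRoots G (C δ), ⟨(monic_scaleRoots_iff _).2 M.monic, ?_, ?_, ?_⟩, hd, ?_⟩
  · intro j
    rw [coeff_scaleRoots, hd, ← C_pow]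
    exact (natDegree_mul_C_le _ _).trans (M.wt j)
  · have h1 := scaleRoots_eval₂_mul (p := G) (aeval x : k[X] →ₐ[k] K).toRingHom w (C δ)
    rw [hφ] at h1
    have h2 := M.zero
    unfold ev at h2 ⊢
    rw [h1, h2, mul_zero]
  · intro f hf h0
    rw [hd] at hf
    have h1 : ev x w (f.comp (C (C δ) * X)) = 0 := by
      unfold ev at h0 ⊢
      rw [eval₂_comp, eval₂_mul, eval₂_C, eval₂_X, hφ]
      exact h0
    have h2 : (f.comp (C (C δ) * X)).natDegree ≤ f.natDegree := by
      refine natDegree_comp_le.trans ?_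
      have h3 : (C (C δ) * X : k[X][X]).natDegree ≤ 1 := (natDegree_C_mul_le _ _).trans natDegree_X_le
      calc f.natDegree * (C (C δ) * X : k[X][X]).natDegree ≤ f.natDegree * 1 :=
            Nat.mul_le_mul_left _ h3
        _ = f.natDegree := mul_one _
    have h4 := M.min _ (lt_of_le_of_lt h2 hf) h1
    have h5 : (f.comp (C (C δ) * X)).comp (C (C δ⁻¹) * X) = f := by
      rw [comp_assoc]
      have h6 : (C (C δ) * X : k[X][X]).comp (C (C δ⁻¹) * X) = X := by
        rw [mul_comp, C_comp, X_comp, ← mul_assoc, ← C_mul, ← C_mul, mul_inv_cancel₀ hδ, C_1, C_1,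
          one_mul]
      rw [h6, comp_X]
    rw [← h5, h4, zero_comp]
  · have hlm := lead_monic (κ := κ) M.monic rfl
    have h7 : (lf κ G).natDegree = G.natDegree := hlm.2
    ext j
    rw [coeff_scaleRoots, h7, scl_lf_coeff, scl_lf_coeff, hd, coeff_scaleRoots, ← C_pow, coeff_mul_C]
    split_ifs with h8
    · rfl
    · rw [zero_mul]

theorem three_scale {k : Type*} [Field k] {P : k[X]} {δ : k} (hδ : δ ≠ 0) (h : Three P) :
    Three (scaleRoots P δ) := by
  obtain ⟨Ω, hΩ, i, a, b, c, hab, hac, hbc, ha, hb, hc⟩ := h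
  have hi : i δ ≠ 0 := (map_ne_zero i).2 hδ
  refine ⟨Ω, hΩ, i, i δ * a, i δ * b, i δ * c, fun h => hab (mul_left_cancel₀ hi h),
    fun h => hac (mul_left_cancel₀ hi h), fun h => hbc (mul_left_cancel₀ hi h), ?_, ?_, ?_⟩
  · rw [scaleRoots_eval₂_mul, ha, mul_zero]
  · rw [scaleRoots_eval₂_mul, hb, mul_zero]
  · rw [scaleRoots_eval₂_mul, hc, mul_zero]

/-- `w` is integral over `k[x]` -/
theorem model_int {k K : Type*} [Field k] [Field K] [Algebra k K] {x w : K} {κ : ℕ}
    {G : k[X][X]} (M : Model x w κ G) : IsIntegral (Algebra.adjoin k {x}) w := by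
  let φ : k[X] →+* Algebra.adjoin k {x} :=
    (aeval (⟨x, Algebra.self_mem_adjoin_singleton k x⟩ : Algebra.adjoin k {x}) :
      k[X] →ₐ[k] Algebra.adjoin k {x}).toRingHom
  have h1 : (algebraMap (Algebra.adjoin k {x}) K).comp φ = (aeval x : k[X] →ₐ[k] K).toRingHom := by
    apply Polynomial.ringHom_ext
    · intro a
      show algebraMap (Algebra.adjoin k {x}) K (aeval _ (C a)) = aeval x (C a)
      rw [aeval_C, aeval_C]
      rfl
    · show algebraMap (Algebra.adjoin k {x}) K (aeval _ X) = aeval x X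
      rw [aeval_X, aeval_X]
      rfl
  refine ⟨G.map φ, M.monic.map φ, ?_⟩
  rw [eval₂_map, h1]
  exact M.zero

end Pool.Agent.H97.SI
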