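import Pool.Agent.H97.SI.TRC
import Pool.Agent.H97.SI.SCL
import Pool.Agent.H4.SF.Defs

/-! # [H97 SI FGD] ALL OF SIEGEL: the data for helper4 from a model over `Q0 H`

Let `x = cl xs ∉ Q0 H`, `Model x w κ G`, `Three (lf κ G)`. (1) `model_int`, `int_small`: `δ ∈ Q0 H`, `δ ≠ 0`, `δ w ∈ ZS`; `model_scale`, `three_scale`: replace `w` by `δ w`, so `w = cl ws`
with integers `ws N` (definition of `ZS`). (2) `lf_pow` with `Z1 = ZS`, `B = V0 H`, `k = Q0 H`, `K = QS` (`algebraMap` = inclusion): `hQB`: `c ∈ Q0 H` is bounded by `|c| ∈ Q0 H`;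
`hZB`: `zs_small`; `hden`: `q0_den`; `x ∉ V0 H`: `zs_big`. (3) `member`: `C`, and `g, p, b` for `UU`-almost all `N`; `w' = b * ws N`.
(4) `H N ≥ 2`: `(H N + 2)^C ≤ (H N)^(2 C)`. (5) `|w'| ≤ |xs N|^D`: `g` monic: `|w'| ≤ 1 + ∑_(j < d) |g_j(xs N)|`, `|g_j(xs N)| ≤ (κ d + 1) (H N + 2)^C |xs N|^(κ d)` (`|xs N| ≥ 1`), and for `UU`-almost
all `N`: `(H N + 2)^(C + κ d + d + 2) ≤ |xs N|` (`x ∉ Q0 H`: `zs_small` for `r = cl (fun N => (H N + 2)^E)`, contraposition; `cl_le`). `D` = the maximum (sum) of all exponents.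
`ev (xs N) w' g = evalEval (xs N) w' g`: unfold (`eval₂RingHom`, `evalEval`). `lead κ g.natDegree g = Pool.Agent.H4.SF.lf κ g` by definition. -/

namespace Pool.Agent.H97.SI

open Filter Finset Polynomial Pool.Agent.H82.NS Pool.Agent.H37.SI

private theorem fgd_large {H : ℕ → ℕ} {xs : ℕ → ℤ} (hx : (cl fun N => (xs N : ℚ)) ∉ Q0 H) (E : ℕ) :
    ∀ᶠ N in UU, ((H N + 2 : ℕ) : ℤ) ^ E ≤ |xs N| := by
  have hr : (cl fun N => (((H N + 2) ^ E : ℕ) : ℚ)) ∈ Q0 H := by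
    refine ⟨_, ⟨E, fun N => ⟨?_, ?_⟩⟩, rfl⟩
    · show ((((H N + 2) ^ E : ℕ) : ℚ)).num.natAbs ≤ _
      rw [Rat.num_natCast, Int.natAbs_natCast]
    · show ((((H N + 2) ^ E : ℕ) : ℚ)).den ≤ _
      rw [Rat.den_natCast]
      exact Nat.one_le_pow _ _ (by omega)
  have h1 : ¬ |(cl fun N => (xs N : ℚ) : QS)| ≤ cl fun N => (((H N + 2) ^ E : ℕ) : ℚ) := fun h =>
    hx (zs_small H _ _ (mem_zs.2 ⟨xs, rfl⟩) hr h)
  rw [abs_le, cl_neg, cl_le, cl_le, ← eventually_and] at h1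
  have h2 := Ultrafilter.eventually_not.2 h1
  refine h2.mono fun N hN => ?_
  by_contra h3
  rw [not_le] at h3
  apply hN
  have h4 : |(xs N : ℚ)| ≤ (((H N + 2) ^ E : ℕ) : ℚ) := by
    rw [← Int.cast_abs]
    have h5 : |xs N| ≤ (((H N + 2) ^ E : ℕ) : ℤ) := by
      push_cast at h3 ⊢
      exact h3.le
    exact_mod_cast h5
  exact abs_le.1 h4

private theorem fgd_root {g : ℤ[X]} (hg : g.Monic) {w : ℤ} (h0 : g.eval w = 0) {B : ℤ}
    (hB : ∀ j, j < g.natDegree → |g.coeff j| ≤ B) (hB0 : 0 ≤ B) : |w| ≤ g.natDegree * B := by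
  rcases eq_or_ne w 0 with rfl | hw
  · rw [abs_zero]; positivity
  have hw1 : 1 ≤ |w| := Int.one_le_abs hw
  rcases Nat.eq_zero_or_pos g.natDegree with hd | hd
  · exfalso
    rw [hg.natDegree_eq_zero] at hd
    rw [hd] at h0
    simp at h0
  obtain ⟨d, hd'⟩ : ∃ d, g.natDegree = d + 1 := ⟨g.natDegree - 1, by omega⟩
  have h1 : w ^ (d + 1) = - ∑ j ∈ range (d + 1), g.coeff j * w ^ j := by
    rw [eval_eq_sum_range, sum_range_succ, ← leadingCoeff, hg.leadingCoeff, one_mul, hd'] at h0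
    linarith
  have h2 : |w| ^ (d + 1) ≤ ((d + 1 : ℕ) : ℤ) * B * |w| ^ d := by
    rw [← abs_pow, h1, abs_neg]
    calc |∑ j ∈ range (d + 1), g.coeff j * w ^ j| ≤ ∑ j ∈ range (d + 1), |g.coeff j * w ^ j| :=
          abs_sum_le_sum_abs _ _
      _ ≤ ∑ j ∈ range (d + 1), B * |w| ^ d := by
          refine sum_le_sum fun j hj => ?_
          rw [mem_range] at hj
          rw [abs_mul, abs_pow]
          exact mul_le_mul (hB j (by omega)) (pow_le_pow_right₀ hw1 (by omega)) (by positivity) hB0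
      _ = ((d + 1 : ℕ) : ℤ) * B * |w| ^ d := by
          rw [sum_const, card_range, nsmul_eq_mul]; ring
  rw [hd']
  have h3 : (0 : ℤ) < |w| ^ d := by positivity
  rw [pow_succ, mul_comm] at h2
  exact le_of_mul_le_mul_right h2 h3

private theorem fgd_val {q : ℤ[X]} {m : ℕ} (hq : q.natDegree ≤ m) {x B : ℤ} (hx : 1 ≤ |x|)
    (hB : ∀ i, |q.coeff i| ≤ B) (hB0 : 0 ≤ B) : |q.eval x| ≤ ((m + 1 : ℕ) : ℤ) * B * |x| ^ m := by
  rw [eval_eq_sum_range' (Nat.lt_succ_of_le hq)]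
  calc |∑ i ∈ range (m + 1), q.coeff i * x ^ i| ≤ ∑ i ∈ range (m + 1), |q.coeff i * x ^ i| :=
        abs_sum_le_sum_abs _ _
    _ ≤ ∑ i ∈ range (m + 1), B * |x| ^ m := by
        refine sum_le_sum fun i hi => ?_
        rw [mem_range] at hi
        rw [abs_mul, abs_pow]
        exact mul_le_mul (hB i) (pow_le_pow_right₀ hx (by omega)) (by positivity) hB0
    _ = ((m + 1 : ℕ) : ℤ) * B * |x| ^ m := by
        rw [sum_const, card_range, nsmul_eq_mul]; ring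

private theorem fgd_ev (x w : ℤ) (g : ℤ[X][X]) : Pool.Agent.H4.SF.ev x w g = evalEval x w g := by
  unfold Pool.Agent.H4.SF.ev
  have h : eval₂RingHom (Int.castRingHom ℤ) x = evalRingHom x := by
    apply Polynomial.ringHom_ext
    · intro a
      simp
    · simp
  rw [h, eval₂_evalRingHom]

private theorem fgd_wbound {g : ℤ[X][X]} (hg : g.Monic) {κ : ℕ}
    (hwt : ∀ j, (g.coeff j).natDegree ≤ κ * (g.natDegree - j)) {x w A : ℤ} (hx : 1 ≤ |x|)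
    (hA0 : 0 ≤ A) (hA : ∀ i j, |(g.coeff j).coeff i| ≤ A) (h0 : evalEval x w g = 0) :
    |w| ≤ g.natDegree * (((κ * g.natDegree + 1 : ℕ) : ℤ) * A * |x| ^ (κ * g.natDegree)) := by
  have hm : (g.map (evalRingHom x)).Monic := hg.map _
  have hd : (g.map (evalRingHom x)).natDegree = g.natDegree := hg.natDegree_map _
  have h1 : (g.map (evalRingHom x)).eval w = 0 := by
    rw [eval_map, eval₂_evalRingHom]
    exact h0
  have h2 := fgd_root hm h1 (B := ((κ * g.natDegree + 1 : ℕ) : ℤ) * A * |x| ^ (κ * g.natDegree))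
    (fun j _ => ?_) (by positivity)
  · rwa [hd] at h2
  · rw [coeff_map, coe_evalRingHom]
    exact fgd_val ((hwt j).trans (Nat.mul_le_mul_left _ (Nat.sub_le _ _))) hx (fun i => hA i j) hA0

theorem frame_good {H : ℕ → ℕ} (hH : ∀ N, 2 ≤ H N) {xs : ℕ → ℤ} {w : QS} {κ : ℕ}
    {G : (Q0 H)[X][X]} (hx : (cl fun N => (xs N : ℚ)) ∉ Q0 H)
    (M : Model (cl fun N => (xs N : ℚ)) w κ G) (h3 : Three (lf κ G)) :
    ∃ D : ℕ, ∀ᶠ N in UU, ∃ (g : ℤ[X][X]) (p : ℤ[X]) (w' : ℤ),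
      Pool.Agent.H4.SF.Good D (H N) κ g p ∧ Pool.Agent.H4.SF.ev (xs N) w' g = 0 ∧
      |w'| ≤ |xs N| ^ D := by
  have hxZ : (cl fun N => (xs N : ℚ) : QS) ∈ ZS := mem_zs.2 ⟨xs, rfl⟩
  obtain ⟨δ, hδ1, hδ2, hδ3, hδ4⟩ := int_small H _ w hxZ (model_int M)
  have hδ' : (⟨δ, hδ1⟩ : Q0 H) ≠ 0 := fun h => hδ3 (congrArg Subtype.val h)
  obtain ⟨G', M', hd', hl'⟩ := model_scale M hδ'
  have h3' : Three (lf κ G') := by rw [hl']; exact three_scale hδ' h3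
  obtain ⟨ws, hws⟩ := mem_zs.1 hδ4
  have hw1 : algebraMap (Q0 H) QS ⟨δ, hδ1⟩ * w = cl fun N => (ws N : ℚ) := hws
  rw [hw1] at M'
  have hQB : ∀ c : Q0 H, algebraMap (Q0 H) QS c ∈ V0 H := by
    intro c
    rcases abs_choice (c : QS) with h | h
    · exact ⟨(c : QS), c.2, le_of_eq h⟩
    · exact ⟨-(c : QS), (Q0 H).neg_mem c.2, le_of_eq h⟩
  have hZB : ∀ z ∈ ZS, z ∈ V0 H → ∃ c : Q0 H, algebraMap (Q0 H) QS c = z := by
    rintro z hz ⟨r, hr, hzr⟩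
    exact ⟨⟨z, zs_small H z r hz hr hzr⟩, rfl⟩
  obtain ⟨P0, r, hm, hi, h3P, hr, hl⟩ := lf_pow ZS (V0 H) hQB hZB (fun c => q0_den H c) hxZ
    (mem_zs.2 ⟨ws, rfl⟩) (zs_big H _ hxZ hx) M' h3'
  obtain ⟨C, hC⟩ := member M' hm hi h3P hr hl
  set d := G'.natDegree with hd
  refine ⟨κ + d + 2 * C + (κ * d + 1), ?_⟩
  filter_upwards [hC, fgd_large hx (d + (κ * d + 1) + C)] with N hN hlarge
  obtain ⟨g, p, b, hg1, hg2, hg3, hg4, hp1, hp2, hp3, hlead, hgc, hpc, hb0, hbc, hev⟩ := hN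
  have hHN : (2 : ℤ) ≤ (H N : ℤ) := by exact_mod_cast hH N
  have hH1 : (1 : ℤ) ≤ ((H N + 2 : ℕ) : ℤ) := by push_cast; linarith
  have hx1 : 1 ≤ |xs N| := le_trans (one_le_pow₀ hH1) hlarge
  -- heights
  have hbase : ((H N + 2 : ℕ) : ℤ) ≤ (H N : ℤ) ^ 2 := by
    push_cast
    nlinarith
  have hht : ((H N + 2 : ℕ) : ℤ) ^ C ≤ (H N : ℤ) ^ (κ + d + 2 * C + (κ * d + 1)) := by
    calc ((H N + 2 : ℕ) : ℤ) ^ C ≤ ((H N : ℤ) ^ 2) ^ C := pow_le_pow_left₀ (by positivity) hbase C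
      _ = (H N : ℤ) ^ (2 * C) := by rw [← pow_mul]
      _ ≤ _ := pow_le_pow_right₀ (by linarith) (by omega)
  -- the degree of `p`
  have hpd : p.natDegree ≤ d := by
    have h5 := (lead_monic (κ := κ) hg1 rfl).2
    rw [hlead, hp1.natDegree_pow, hg2] at h5
    calc p.natDegree = 1 * p.natDegree := (one_mul _).symm
      _ ≤ r * p.natDegree := Nat.mul_le_mul_right _ hr
      _ = d := h5
  refine ⟨g, p, b * ws N, ⟨by omega, hg1, by omega, hg4, hg3, fun i j => (hgc i j).trans hht, hp1,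
    hp2, hp3, ⟨r, hlead⟩, by omega, fun i => (hpc i).trans hht⟩, ?_, ?_⟩
  · rw [fgd_ev]; exact hev
  · have hA0 : (0 : ℤ) ≤ ((H N + 2 : ℕ) : ℤ) ^ C := by positivity
    have h6 := fgd_wbound hg1 hg3 hx1 hA0 hgc hev
    rw [hg2] at h6
    refine h6.trans ?_
    have h2pow : ∀ n : ℕ, (n : ℤ) ≤ ((H N + 2 : ℕ) : ℤ) ^ n := by
      intro n
      have h7 : n ≤ (H N + 2) ^ n := (Nat.lt_pow_self (by omega)).le
      exact_mod_cast h7
    have h8 : (d : ℤ) * (((κ * d + 1 : ℕ) : ℤ) * ((H N + 2 : ℕ) : ℤ) ^ C) ≤ |xs N| := by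
      refine le_trans ?_ hlarge
      rw [pow_add, pow_add, mul_assoc]
      exact mul_le_mul (h2pow d) (mul_le_mul_of_nonneg_right (h2pow _) hA0) (by positivity)
        (by positivity)
    calc (d : ℤ) * (((κ * d + 1 : ℕ) : ℤ) * ((H N + 2 : ℕ) : ℤ) ^ C * |xs N| ^ (κ * d))
        = ((d : ℤ) * (((κ * d + 1 : ℕ) : ℤ) * ((H N + 2 : ℕ) : ℤ) ^ C)) * |xs N| ^ (κ * d) := by ring
      _ ≤ |xs N| * |xs N| ^ (κ * d) := mul_le_mul_of_nonneg_right h8 (by positivity)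
      _ = |xs N| ^ (κ * d + 1) := by rw [pow_succ]; ring
      _ ≤ |xs N| ^ (κ + d + 2 * C + (κ * d + 1)) := pow_le_pow_right₀ hx1 (by omega)

end Pool.Agent.H97.SI
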