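import Pool.Agent.H97.SI.RGB

/-! # [H97 SI RGC] ALL OF SIEGEL: the leading form is a power of an irreducible polynomial of degree `≥ 3`

`lf κ G` is monic of degree `D ≥ 1` (three roots). Let `P₀` be a monic irreducible factor, `lf κ G = P₀^r Q`, `P₀ ∤ Q`
(`exists_eq_pow_mul_and_not_dvd`, `multiplicity`), `r ≥ 1`: `P₀^r`, `Q` are coprime (`Irreducible.coprime_iff_not_dvd`, `IsCoprime.pow_left`), so by `runge_fr` `Q` has
degree `0`, monic: `Q = 1`. The three different roots in `Ω` of `P₀^r` are roots of `P₀`: `3 ≤ P₀.natDegree`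
(`card_roots'` of `P₀.map i`, a finset of three elements). -/

namespace Pool.Agent.H97.SI

open Finset Polynomial Pool.Agent.H37.SI

theorem lf_pow {k K : Type*} [Field k] [Field K] [Algebra k K] (Z1 : Subring K)
    (B : ValuationSubring K) (hQB : ∀ c : k, algebraMap k K c ∈ B)
    (hZB : ∀ z ∈ Z1, z ∈ B → ∃ c : k, algebraMap k K c = z)
    (hden : ∀ c : k, ∃ b : k, b ≠ 0 ∧ algebraMap k K b ∈ Z1 ∧ algebraMap k K (b * c) ∈ Z1)
    {x w : K} (hx : x ∈ Z1) (hw : w ∈ Z1) (hxB : x ∉ B) {κ : ℕ} {G : k[X][X]}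
    (M : Model x w κ G) (h3 : Three (lf κ G)) :
    ∃ (P0 : k[X]) (r : ℕ), P0.Monic ∧ Irreducible P0 ∧ 3 ≤ P0.natDegree ∧ 1 ≤ r ∧
      lf κ G = P0 ^ r := by
  classical
  obtain ⟨Ω, hΩ, i, a, b, c, hab, hac, hbc, ha, hb, hc⟩ := h3
  have hlf : (lf κ G).Monic ∧ (lf κ G).natDegree = G.natDegree := lead_monic M.monic rfl
  have hne : lf κ G ≠ 0 := hlf.1.ne_zero
  have hnu : ¬ IsUnit (lf κ G) := by
    intro hu
    rw [hlf.1.isUnit_iff.1 hu, eval₂_one] at ha
    exact one_ne_zero ha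
  obtain ⟨q, hq, hqd⟩ := WfDvdMonoid.exists_irreducible_factor hnu hne
  obtain ⟨P0, hP0⟩ : ∃ P0, P0 = q * C q.leadingCoeff⁻¹ := ⟨_, rfl⟩
  have hmon : P0.Monic := by
    rw [hP0]
    exact monic_mul_leadingCoeff_inv hq.ne_zero
  have hirr : Irreducible P0 := by
    rw [hP0]
    exact irreducible_mul_leadingCoeff_inv.2 hq
  have hdvd : P0 ∣ lf κ G := by
    have h5 : IsUnit (C q.leadingCoeff⁻¹ : k[X]) :=
      isUnit_C.2 (IsUnit.mk0 _ (inv_ne_zero (leadingCoeff_ne_zero.2 hq.ne_zero)))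
    rw [hP0]
    exact (h5.mul_right_dvd).2 hqd
  obtain ⟨r, Q, hQ, hr⟩ := WfDvdMonoid.max_power_factor hne hirr
  have hr1 : 1 ≤ r := by
    by_contra h0
    have h1 : r = 0 := by omega
    rw [h1, pow_zero, one_mul] at hr
    exact hQ (hr ▸ hdvd)
  have hpos : 0 < P0.natDegree := hirr.natDegree_pos
  have hcop : IsCoprime (P0 ^ r) Q := ((hirr.coprime_iff_not_dvd).2 hQ).pow_left
  have hQm : Q.Monic := (hmon.pow r).of_mul_monic_left (hr ▸ hlf.1)
  have hQ1 : Q = 1 := by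
    rw [← hQm.natDegree_eq_zero]
    by_contra h0
    refine runge_fr Z1 B hQB hZB hden hx hw hxB M hr hcop ?_ (Nat.pos_of_ne_zero h0)
    rw [natDegree_pow]
    exact Nat.mul_pos hr1 hpos
  rw [hQ1, mul_one] at hr
  refine ⟨P0, r, hmon, hirr, ?_, hr1, hr⟩
  rw [hr] at ha hb hc
  rw [eval₂_pow] at ha hb hc
  have ha' := pow_eq_zero_iff (by omega) |>.1 ha
  have hb' := pow_eq_zero_iff (by omega) |>.1 hb
  have hc' := pow_eq_zero_iff (by omega) |>.1 hc
  have hcard : ({a, b, c} : Finset Ω).card = 3 := card_eq_three.2 ⟨a, b, c, hab, hac, hbc, rfl⟩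
  have h6 : ({a, b, c} : Finset Ω).card ≤ (P0.map i).natDegree := by
    refine card_le_degree_of_subset_roots ?_
    intro y hy
    have hmne : P0.map i ≠ 0 := (hmon.map i).ne_zero
    rw [mem_roots hmne, IsRoot.def, eval_map]
    rw [Finset.mem_val, mem_insert, mem_insert, mem_singleton] at hy
    rcases hy with rfl | rfl | rfl
    · exact ha'
    · exact hb'
    · exact hc'
  rw [hcard, natDegree_map] at h6
  exact h6

end Pool.Agent.H97.SI
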