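import Mathlib

/-! # [H97 SI RGA] ALL OF SIEGEL, Runge in the frame: linear algebra modulo `(P₁^N, P, ε^N)`

`K[X][X]`: inner variable `ε`, outer variable `T`. `P(0, T) = P₁ P₂`, coprime. Every `u ∈ K[X][X]` is congruent modulo
`J = (P₁(T)^N, P, ε^N)` to some `∑_(i < N) ε^i r_i(T)`, `deg r_i < deg P₁`.
STEP: `u = u₀(T) + ε u'` (`Polynomial.divX` of the coefficients, `u₀ = u.map (evalRingHom 0)`), `u₀ = q P₁ + r`. From `a P₁^(N-1) + b P₂ = 1`
(`IsCoprime.pow_left`): `P₁ = a P₁^N + b P₁ P₂`, and `(P₁ P₂).map C = P - C X * P'` (`P' =` the coefficientwise `divX`). So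
`u = r.map C + C X * (u' - q b P') + element of J`. Iterate `N` times: the linear map `(Fin N × Fin (deg P₁) → K) → K[X][X] / J`,
`c ↦ ∑ c_ij ε^i T^j`, is surjective, so the quotient has dimension `≤ N * P₁.natDegree`, and `mk ∘ Φ` has a kernel `≠ 0`
(`LinearMap.exists_ne_zero..`, `LinearMap.ker_eq_bot_of..`, `finrank`). `J` as span of three elements: `Ideal.mem_span_insert`. -/

namespace Pool.Agent.H97.SI

open Finset Polynomial

/-- the part of `ε`-order `0` -/
private theorem rga_split {K : Type*} [Field K] (u : K[X][X]) :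
    ∃ u1 : K[X][X], u = (u.map (evalRingHom 0)).map C + C X * u1 := by
  have h : (C X : K[X][X]) ∣ u - (u.map (evalRingHom 0)).map C := by
    rw [C_dvd_iff_dvd_coeff]
    intro i
    rw [X_dvd_iff, coeff_sub, coeff_map, coeff_map, coeff_sub, coeff_C_zero, coe_evalRingHom,
      ← coeff_zero_eq_eval_zero, sub_self]
  obtain ⟨v, hv⟩ := h
  exact ⟨v, by rw [← hv]; ring⟩

/-- one step of the reduction -/
theorem red_step {K : Type*} [Field K] {P : K[X][X]} {P1 P2 : K[X]} {N : ℕ} (hN : 1 ≤ N)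
    (hP : P.map (evalRingHom 0) = P1 * P2) (hc : IsCoprime P1 P2) (h1 : P1 ≠ 0) (u : K[X][X]) :
    ∃ (r : K[X]) (u1 a b : K[X][X]), r.degree < P1.degree ∧
      u = r.map C + C X * u1 + a * (P1 ^ N).map C + b * P := by
  obtain ⟨u', hu'⟩ := rga_split u
  obtain ⟨P', hP'⟩ := rga_split P
  rw [hP] at hP'
  have hc' : IsCoprime (P1 ^ (N - 1)) P2 := hc.pow_left
  obtain ⟨a, b, hab⟩ := hc'
  set u0 : K[X] := u.map (evalRingHom 0) with hu0
  have hdm : u0 = P1 * (u0 / P1) + u0 % P1 := (EuclideanDomain.div_add_mod u0 P1).symm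
  set q := u0 / P1 with hq
  set r := u0 % P1 with hr
  have hdeg : r.degree < P1.degree := degree_mod_lt _ h1
  have hpow : P1 ^ N = P1 * P1 ^ (N - 1) := by
    rw [← pow_succ', Nat.sub_add_cancel hN]
  have h2 : P1 * q = (q * a) * P1 ^ N + (q * b) * (P1 * P2) := by
    rw [hpow]
    linear_combination (P1 * q) * (-hab)
  refine ⟨r, u' - (q * b).map C * P', (q * a).map C, (q * b).map C, hdeg, ?_⟩
  have h3 : u0.map C = (q * a).map C * (P1 ^ N).map C + (q * b).map C * (P1 * P2).map C + r.map C := by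
    rw [← Polynomial.map_mul, ← Polynomial.map_mul, ← Polynomial.map_add, ← h2,
      ← Polynomial.map_add, ← hdm]
  have h4 : (P1 * P2).map C = P - C X * P' := by
    linear_combination -hP'
  rw [h4] at h3
  linear_combination hu' + h3

/-- `k` steps of the reduction -/
private theorem rga_iter {K : Type*} [Field K] {P : K[X][X]} {P1 P2 : K[X]} {N : ℕ} (hN : 1 ≤ N)
    (hP : P.map (evalRingHom 0) = P1 * P2) (hc : IsCoprime P1 P2) (h1 : P1 ≠ 0) (k : ℕ) :
    ∀ u : K[X][X], ∃ (r : ℕ → K[X]) (u1 a b : K[X][X]), (∀ i, (r i).degree < P1.degree) ∧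
      u = ∑ i ∈ range k, C (X ^ i) * (r i).map C + C (X ^ k) * u1 + a * (P1 ^ N).map C + b * P := by
  induction k with
  | zero =>
    intro u
    refine ⟨fun _ => 0, u, 0, 0, fun i => ?_, ?_⟩
    · rw [degree_zero]
      exact bot_lt_iff_ne_bot.2 (fun h => h1 (degree_eq_bot.1 h))
    · rw [sum_range_zero, pow_zero, C_1]
      ring
  | succ k ih =>
    intro u
    obtain ⟨r, u1, a, b, hr, hu⟩ := ih u
    obtain ⟨r', u2, a', b', hr', hu'⟩ := red_step hN hP hc h1 u1
    refine ⟨Function.update r k r', u2, a + C (X ^ k) * a', b + C (X ^ k) * b', fun i => ?_, ?_⟩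
    · by_cases hi : i = k
      · rw [hi, Function.update_self]; exact hr'
      · rw [Function.update_of_ne hi]; exact hr i
    · rw [sum_range_succ, Function.update_self]
      have h2 : ∑ i ∈ range k, C (X ^ i) * (Function.update r k r' i).map C =
          ∑ i ∈ range k, C (X ^ i) * (r i).map C := by
        refine sum_congr rfl fun i hi => ?_
        rw [Function.update_of_ne (ne_of_lt (mem_range.1 hi))]
      rw [h2]
      have h3 : (C (X ^ (k + 1)) : K[X][X]) = C (X ^ k) * C X := by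
        rw [← C_mul, ← pow_succ]
      rw [h3]
      linear_combination hu + C (X ^ k) * hu'

/-- the monomials span modulo the ideal -/
private theorem rga_span {K : Type*} [Field K] {P : K[X][X]} {P1 P2 : K[X]} {N : ℕ} (hN : 1 ≤ N)
    (hP : P.map (evalRingHom 0) = P1 * P2) (hc : IsCoprime P1 P2) (h1 : P1 ≠ 0)
    (J : Ideal K[X][X]) (hJ1 : (P1 ^ N).map C ∈ J) (hJ2 : P ∈ J) (hJ3 : C (X ^ N) ∈ J) :
    Module.Finite K (K[X][X] ⧸ J) ∧ Module.finrank K (K[X][X] ⧸ J) ≤ N * P1.natDegree := by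
  classical
  let e : Fin N × Fin P1.natDegree → K[X][X] := fun z => C (X ^ (z.1 : ℕ)) * X ^ (z.2 : ℕ)
  let L : (Fin N × Fin P1.natDegree → K) →ₗ[K] (K[X][X] ⧸ J) :=
    (Ideal.Quotient.mkₐ K J).toLinearMap ∘ₗ Fintype.linearCombination K e
  have hsur : Function.Surjective L := by
    intro y
    obtain ⟨u, rfl⟩ := Ideal.Quotient.mk_surjective y
    obtain ⟨r, u1, a, b, hr, hu⟩ := rga_iter hN hP hc h1 N u
    refine ⟨fun z => (r z.1).coeff z.2, ?_⟩
    show (Ideal.Quotient.mk J) (Fintype.linearCombination K e fun z => (r z.1).coeff z.2) =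
      (Ideal.Quotient.mk J) u
    have h2 : (Fintype.linearCombination K e fun z => (r z.1).coeff z.2) =
        ∑ i ∈ range N, C (X ^ i) * (r i).map C := by
      rw [Fintype.linearCombination_apply, Fintype.sum_prod_type, ← Fin.sum_univ_eq_sum_range
        (fun i => C (X ^ i) * (r i).map C) N]
      refine Finset.sum_congr rfl fun i _ => ?_
      have h3 : (r i).map C = ∑ j ∈ range P1.natDegree, C (C ((r i).coeff j)) * X ^ j := by
        have h4 : (r (i : ℕ)) = ∑ j ∈ range P1.natDegree, C ((r i).coeff j) * X ^ j := by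
          by_cases h0 : r (i : ℕ) = 0
          · rw [h0]
            simp
          · have h5 : (r (i : ℕ)).natDegree < P1.natDegree := natDegree_lt_natDegree h0 (hr i)
            exact (as_sum_range' _ _ h5).trans (sum_congr rfl fun j _ => by rw [C_mul_X_pow_eq_monomial])
        conv_lhs => rw [h4]
        rw [Polynomial.map_sum]
        refine sum_congr rfl fun j _ => ?_
        rw [Polynomial.map_mul, map_C, Polynomial.map_pow, map_X]
      rw [h3, ← Fin.sum_univ_eq_sum_range (fun j => C (C ((r i).coeff j)) * X ^ j) P1.natDegree,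
        Finset.mul_sum]
      refine Finset.sum_congr rfl fun j _ => ?_
      show (r i).coeff j • (C (X ^ (i : ℕ)) * X ^ (j : ℕ)) = _
      rw [Algebra.smul_def]
      show C (C ((r i).coeff j)) * (C (X ^ (i : ℕ)) * X ^ (j : ℕ)) = _
      ring
    rw [h2, eq_comm, Ideal.Quotient.eq, hu]
    have h6 : ∑ i ∈ range N, C (X ^ i) * (r i).map C + C (X ^ N) * u1 + a * (P1 ^ N).map C + b * P -
        ∑ i ∈ range N, C (X ^ i) * (r i).map C = C (X ^ N) * u1 + a * (P1 ^ N).map C + b * P := by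
      ring
    rw [h6]
    exact J.add_mem (J.add_mem (J.mul_mem_right _ hJ3) (J.mul_mem_left _ hJ1)) (J.mul_mem_left _ hJ2)
  refine ⟨Module.Finite.of_surjective L hsur, ?_⟩
  have h7 := LinearMap.finrank_le_finrank_of_surjective hsur
  rwa [Module.finrank_fintype_fun_eq_card, Fintype.card_prod, Fintype.card_fin, Fintype.card_fin] at h7

theorem exists_rel {K : Type*} [Field K] {P : K[X][X]} {P1 P2 : K[X]} {N : ℕ} (hN : 1 ≤ N)
    (hP : P.map (evalRingHom 0) = P1 * P2) (hc : IsCoprime P1 P2) (h1 : P1 ≠ 0) {ι : Type*}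
    [Fintype ι] (Φ : (ι → K) →ₗ[K] K[X][X]) (hι : N * P1.natDegree < Fintype.card ι) :
    ∃ (c : ι → K) (u v s : K[X][X]), c ≠ 0 ∧
      Φ c = (P1 ^ N).map C * u + P * v + C (X ^ N) * s := by
  classical
  let J : Ideal K[X][X] := Ideal.span {(P1 ^ N).map C, P, C (X ^ N)}
  have hJ1 : (P1 ^ N).map C ∈ J := Ideal.subset_span (Set.mem_insert _ _)
  have hJ2 : P ∈ J := Ideal.subset_span (Set.mem_insert_of_mem _ (Set.mem_insert _ _))
  have hJ3 : C (X ^ N) ∈ J :=
    Ideal.subset_span (Set.mem_insert_of_mem _ (Set.mem_insert_of_mem _ (Set.mem_singleton _)))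
  obtain ⟨hfin, hrank⟩ := rga_span hN hP hc h1 J hJ1 hJ2 hJ3
  let L : (ι → K) →ₗ[K] (K[X][X] ⧸ J) := (Ideal.Quotient.mkₐ K J).toLinearMap ∘ₗ Φ
  have hker : LinearMap.ker L ≠ ⊥ := by
    refine L.ker_ne_bot_of_finrank_lt ?_
    rw [Module.finrank_fintype_fun_eq_card]
    omega
  obtain ⟨c, hc1, hc2⟩ := (Submodule.ne_bot_iff _).1 hker
  have h3 : Φ c ∈ J := by
    rw [LinearMap.mem_ker] at hc1
    exact Ideal.Quotient.eq_zero_iff_mem.1 hc1
  obtain ⟨u, w, hw, h4⟩ := Ideal.mem_span_insert.1 h3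
  obtain ⟨v, s, h5⟩ := Ideal.mem_span_pair.1 hw
  exact ⟨c, u, v, s, hc2, by rw [h4, ← h5]; ring⟩

end Pool.Agent.H97.SI
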