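import Pool.Agent.H97.SI.RGA
import Pool.Agent.H37.SI.Defs

/-! # [H97 SI RGB] ALL OF SIEGEL: Runge's theorem in the frame

`K` a field (the nonstandard rationals) over the field `k` (`Q0 H`), `Z1` a subring (the nonstandard integers), `B` a valuation ring of `K`
(the elements bounded by an element of `k`). `x, w ∈ Z1`, `x ∉ B`, `Model x w κ G` (`Pool/Agent/H37/SI/Defs.lean`). Write `D = G.natDegree`.
PROOF. `e = 1/x ∈ B`, not a unit of `B`; `t = w e^κ`. `P = wrev κ D G`, `P(e, t) = e^(κ D) G(x, w) = 0` (`wrev_ev`, `eval₂_reflect_mul_pow`),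
`P` monic in `T`, so `t ∈ B` (`B` is integrally closed). `P(0, T) = lead κ D G = lf κ G` (`coeff_reflect`, `revAt`). Suppose `lf = P₁ P₂`, coprime, both of
positive degree (so of degree `≤ D - 1`; `lf` is monic of degree `D`: `lead_monic`). `N = κ D² + 1`. `ι` = the pairs `(i, j) ≠ (0, 0)` with `j < D`, `i + κ j ≤ N`
(a `Finset (ℕ × ℕ)`): `card ι ≥ D (N + 1) - κ D (D-1)/2 - 1 > N (D - 1)`. `Φ c = ∑ c_ij ε^(N - i - κ j) T^j`. `exists_rel` gives `c ≠ 0` with
`Φ c = P₁^N u + P v + ε^N s`. At `(e, t)`: `P₂(t)^N (Φ c)(e,t) = (P₁P₂)(t)^N u(e,t) + e^N s(e,t) P₂(t)^N`, `(P₁P₂)(t) = lf(t) = lf(t) - P(e,t) = e * (element of B)`.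
So `f = ∑ c_ij x^i w^j = x^N (Φ c)(e,t)` satisfies `P₂(t)^N f ∈ B`. The same with `P₁, P₂` exchanged: `f'`, `P₁(t)^N f' ∈ B`. From
`α P₁^N + β P₂^N = 1` at `t`: `P₁(t)^N` or `P₂(t)^N` is a unit of `B`, so `f ∈ B` or `f' ∈ B`. With a common denominator `b ≠ 0` of the `c_ij`
(induction over the finset, `hden`): `b f ∈ Z1 ∩ B`, so in `k`, so `f ∈ k`, and `∑ c_ij X^i W^j - f` vanishes at `(x, w)`: it is `0` (`M.min`), so all
`c_ij = 0` (`(i,j) ≠ (0,0)`): contradiction. -/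

namespace Pool.Agent.H97.SI

open Finset Polynomial Pool.Agent.H37.SI

/-- the leading form for the weights `1, κ` -/
noncomputable def lead {R : Type*} [CommRing R] (κ D : ℕ) (G : R[X][X]) : R[X] :=
  ∑ j ∈ range (D + 1), C ((G.coeff j).coeff (κ * (D - j))) * X ^ j

/-- `P(ε, T) = ε^(κ D) G(1/ε, T/ε^κ)` -/
noncomputable def wrev {R : Type*} [CommRing R] (κ D : ℕ) (G : R[X][X]) : R[X][X] :=
  ∑ j ∈ range (D + 1), C (reflect (κ * (D - j)) (G.coeff j)) * X ^ j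

private theorem rgb_coeff {R : Type*} [CommRing R] (a : ℕ → R) (D n : ℕ) :
    (∑ j ∈ range (D + 1), C (a j) * X ^ j : R[X]).coeff n = if n ≤ D then a n else 0 := by
  rw [finsetSum_coeff]
  simp only [coeff_C_mul_X_pow]
  rw [Finset.sum_ite_eq]
  by_cases h : n ≤ D
  · rw [if_pos h, if_pos (mem_range.2 (by omega))]
  · rw [if_neg h, if_neg (by rw [mem_range]; omega)]

private theorem rgb_monic {R : Type*} [CommRing R] [Nontrivial R] (a : ℕ → R) (D : ℕ) (h : a D = 1) :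
    (∑ j ∈ range (D + 1), C (a j) * X ^ j : R[X]).Monic ∧
      (∑ j ∈ range (D + 1), C (a j) * X ^ j : R[X]).natDegree = D := by
  have h1 : (∑ j ∈ range (D + 1), C (a j) * X ^ j : R[X]).natDegree ≤ D := by
    rw [natDegree_le_iff_coeff_eq_zero]
    intro n hn
    rw [rgb_coeff, if_neg (by omega)]
  have h2 : (∑ j ∈ range (D + 1), C (a j) * X ^ j : R[X]).coeff D = 1 := by
    rw [rgb_coeff, if_pos le_rfl, h]
  refine ⟨monic_of_natDegree_le_of_coeff_eq_one D h1 h2, le_antisymm h1 ?_⟩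
  exact le_natDegree_of_ne_zero (by rw [h2]; exact one_ne_zero)

theorem wrev_zero {R : Type*} [CommRing R] (κ D : ℕ) (G : R[X][X]) :
    (wrev κ D G).map (evalRingHom 0) = lead κ D G := by
  unfold wrev lead
  rw [Polynomial.map_sum]
  refine sum_congr rfl fun j _ => ?_
  rw [Polynomial.map_mul, map_C, Polynomial.map_pow, map_X, coe_evalRingHom,
    ← coeff_zero_eq_eval_zero, coeff_reflect, revAt_zero]

theorem wrev_monic {R : Type*} [CommRing R] [Nontrivial R] {κ D : ℕ} {G : R[X][X]} (hm : G.Monic)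
    (hD : G.natDegree = D) : (wrev κ D G).Monic ∧ (wrev κ D G).natDegree = D := by
  unfold wrev
  refine rgb_monic _ D ?_
  have h1 : G.coeff D = 1 := by
    rw [← hD]
    exact hm
  rw [h1, Nat.sub_self, mul_zero, reflect_one, pow_zero]

theorem lead_monic {R : Type*} [CommRing R] [Nontrivial R] {κ D : ℕ} {G : R[X][X]} (hm : G.Monic)
    (hD : G.natDegree = D) : (lead κ D G).Monic ∧ (lead κ D G).natDegree = D := by
  unfold lead
  refine rgb_monic _ D ?_
  have h1 : G.coeff D = 1 := by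
    rw [← hD]
    exact hm
  rw [h1, Nat.sub_self, mul_zero, coeff_one_zero]

/-- for any ring homomorphism `φ : R → K` -/
theorem wrev_ev {R K : Type*} [CommRing R] [Field K] (φ : R →+* K) {x w : K} (hx : x ≠ 0)
    {κ D : ℕ} {G : R[X][X]} (hD : G.natDegree = D)
    (hwt : ∀ j, (G.coeff j).natDegree ≤ κ * (D - j)) :
    x ^ (κ * D) * eval₂ (eval₂RingHom φ x⁻¹) (w * x⁻¹ ^ κ) (wrev κ D G) =
      eval₂ (eval₂RingHom φ x) w G := by
  have : Invertible x := invertibleOfNonzero hx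
  rw [eval₂_eq_sum_range (p := G), hD]
  unfold wrev
  rw [eval₂_finsetSum, mul_sum]
  refine sum_congr rfl fun j hj => ?_
  have hj' : j ≤ D := by
    rw [mem_range] at hj
    omega
  have h1 := eval₂_reflect_mul_pow φ x (κ * (D - j)) (G.coeff j) (hwt j)
  rw [invOf_eq_inv] at h1
  rw [eval₂_mul, eval₂_C, eval₂_pow, eval₂_X, coe_eval₂RingHom, coe_eval₂RingHom, ← h1]
  have h2 : x ^ (κ * D) = x ^ (κ * (D - j)) * (x ^ κ) ^ j := by
    rw [← pow_mul, ← pow_add, ← mul_add, Nat.sub_add_cancel hj']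
  have h3 : (x ^ κ) ^ j * (w * x⁻¹ ^ κ) ^ j = w ^ j := by
    rw [← mul_pow]
    congr 1
    rw [mul_left_comm, ← mul_pow, mul_inv_cancel₀ hx, one_pow, mul_one]
  rw [h2, ← h3]
  ring

/-- common denominator -/
private theorem rgb_den {k K : Type*} [Field k] [Field K] [Algebra k K] (Z1 : Subring K)
    (hden : ∀ c : k, ∃ b : k, b ≠ 0 ∧ algebraMap k K b ∈ Z1 ∧ algebraMap k K (b * c) ∈ Z1)
    {ι : Type*} (c : ι → k) (s : Finset ι) :
    ∃ b : k, b ≠ 0 ∧ algebraMap k K b ∈ Z1 ∧ ∀ i ∈ s, algebraMap k K (b * c i) ∈ Z1 := by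
  classical
  induction s using Finset.induction_on with
  | empty => exact ⟨1, one_ne_zero, by rw [map_one]; exact Z1.one_mem, fun i hi => by simp at hi⟩
  | insert a s ha ih =>
    obtain ⟨b, hb0, hb1, hb2⟩ := ih
    obtain ⟨b', hb0', hb1', hb2'⟩ := hden (c a)
    refine ⟨b * b', mul_ne_zero hb0 hb0', ?_, fun i hi => ?_⟩
    · rw [map_mul]
      exact Z1.mul_mem hb1 hb1'
    · rcases mem_insert.1 hi with rfl | hi
      · rw [mul_assoc, map_mul]
        exact Z1.mul_mem hb1 hb2'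
      · rw [mul_comm b b', mul_assoc, map_mul]
        exact Z1.mul_mem hb1' (hb2 i hi)

/-- a nontrivial combination of the `x ^ (i + 1) w ^ j` is not bounded -/
private theorem rgb_key {k K : Type*} [Field k] [Field K] [Algebra k K] (Z1 : Subring K)
    (B : ValuationSubring K) (hQB : ∀ c : k, algebraMap k K c ∈ B)
    (hZB : ∀ z ∈ Z1, z ∈ B → ∃ c : k, algebraMap k K c = z)
    (hden : ∀ c : k, ∃ b : k, b ≠ 0 ∧ algebraMap k K b ∈ Z1 ∧ algebraMap k K (b * c) ∈ Z1)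
    {x w : K} (hx : x ∈ Z1) (hw : w ∈ Z1) {κ : ℕ} {G : k[X][X]}
    (M : Model x w κ G) (hG : 0 < G.natDegree) {m : ℕ} (c : Fin m × Fin G.natDegree → k) (hc : c ≠ 0) :
    (∑ z, algebraMap k K (c z) * (x ^ ((z.1 : ℕ) + 1) * w ^ (z.2 : ℕ))) ∉ B := by
  classical
  intro hB
  apply hc
  obtain ⟨b, hb0, hb1, hb2⟩ := rgb_den Z1 hden c univ
  obtain ⟨f, hf⟩ : ∃ f, f = ∑ z, algebraMap k K (c z) * (x ^ ((z.1 : ℕ) + 1) * w ^ (z.2 : ℕ)) := ⟨_, rfl⟩
  rw [← hf] at hB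
  have h1 : algebraMap k K b * f ∈ Z1 := by
    rw [hf, mul_sum]
    refine Z1.sum_mem fun z hz => ?_
    rw [← mul_assoc, ← map_mul]
    exact Z1.mul_mem (hb2 z hz) (Z1.mul_mem (Z1.pow_mem hx _) (Z1.pow_mem hw _))
  obtain ⟨c0, hc0⟩ := hZB _ h1 (B.mul_mem _ _ (hQB b) hB)
  have hb0' : algebraMap k K b ≠ 0 := (map_ne_zero_iff _ (algebraMap k K).injective).2 hb0
  have h2 : f = algebraMap k K (b⁻¹ * c0) := by
    rw [map_mul, map_inv₀, hc0, ← mul_assoc, inv_mul_cancel₀ hb0', one_mul]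
  obtain ⟨c1, hc1⟩ : ∃ c1, c1 = b⁻¹ * c0 := ⟨_, rfl⟩
  rw [← hc1] at h2
  obtain ⟨F, hF⟩ : ∃ F : k[X][X], F = ∑ z : Fin m × Fin G.natDegree,
      C (C (c z) * X ^ ((z.1 : ℕ) + 1)) * X ^ (z.2 : ℕ) - C (C c1) := ⟨_, rfl⟩
  have h3 : F.natDegree < G.natDegree := by
    rw [hF]
    refine lt_of_le_of_lt (natDegree_sub_le _ _) (max_lt ?_ ?_)
    · refine lt_of_le_of_lt (natDegree_sum_le_of_forall_le (n := G.natDegree - 1) _ _ fun z _ => ?_)
        (by omega)
      refine (natDegree_C_mul_X_pow_le _ _).trans ?_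
      have := z.2.2
      omega
    · rw [natDegree_C]
      exact hG
  have h4 : ev x w F = 0 := by
    unfold ev
    rw [hF, eval₂_sub, eval₂_finsetSum, eval₂_C]
    have h5 : ∀ z ∈ (univ : Finset (Fin m × Fin G.natDegree)),
        eval₂ (aeval x : k[X] →ₐ[k] K).toRingHom w
        (C (C (c z) * X ^ ((z.1 : ℕ) + 1)) * X ^ (z.2 : ℕ)) =
        algebraMap k K (c z) * (x ^ ((z.1 : ℕ) + 1) * w ^ (z.2 : ℕ)) := by
      intro z _
      rw [eval₂_mul, eval₂_C, eval₂_X_pow]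
      show (aeval x) (C (c z) * X ^ ((z.1 : ℕ) + 1)) * w ^ (z.2 : ℕ) = _
      rw [map_mul, aeval_C, map_pow, aeval_X, mul_assoc]
    rw [sum_congr rfl h5, ← hf, h2]
    show _ - (aeval x) (C c1) = 0
    rw [aeval_C, sub_self]
  have h6 := M.min F h3 h4
  funext z
  have h7 : (F.coeff (z.2 : ℕ)).coeff ((z.1 : ℕ) + 1) = c z := by
    rw [hF, coeff_sub, coeff_sub, finsetSum_coeff, finsetSum_coeff, Finset.sum_eq_single z]
    · rw [coeff_C_mul_X_pow, if_pos rfl, coeff_C_mul_X_pow, if_pos rfl]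
      have h8 : ((C (C c1) : k[X][X]).coeff (z.2 : ℕ)).coeff ((z.1 : ℕ) + 1) = 0 := by
        rw [coeff_C]
        split_ifs
        · rw [coeff_C, if_neg (Nat.succ_ne_zero _)]
        · exact coeff_zero _
      rw [h8, sub_zero]
    · intro y _ hy
      rw [coeff_C_mul_X_pow]
      split_ifs with h8
      · rw [coeff_C_mul_X_pow, if_neg]
        intro h9
        apply hy
        ext
        · omega
        · exact h8.symm
      · exact coeff_zero _
    · intro h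
      exact absurd (mem_univ z) h
  rw [← h7, h6, coeff_zero, coeff_zero]
  rfl

/-- one half of the argument: a nontrivial combination times `P₂(t)^N` is bounded -/
private theorem rgb_half {k K : Type*} [Field k] [Field K] [Algebra k K]
    (B : ValuationSubring K) (hQB : ∀ c : k, algebraMap k K c ∈ B)
    {x w : K} (hx0 : x ≠ 0) (hxB : x⁻¹ ∈ B) {κ : ℕ} {G : k[X][X]} (htB : w * x⁻¹ ^ κ ∈ B)
    (M : Model x w κ G) (hG : 0 < G.natDegree) {P1 P2 : k[X]} (hP : lf κ G = P1 * P2)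
    (hc : IsCoprime P1 P2) (h1 : P1 ≠ 0) (hdeg : P1.natDegree + 1 ≤ G.natDegree) {N m : ℕ}
    (hN : N = κ * G.natDegree ^ 2 + 1) (hm : m + κ * G.natDegree = N) :
    ∃ c : Fin m × Fin G.natDegree → k, c ≠ 0 ∧
      (aeval (w * x⁻¹ ^ κ) P2) ^ N *
        (∑ z, algebraMap k K (c z) * (x ^ ((z.1 : ℕ) + 1) * w ^ (z.2 : ℕ))) ∈ B := by
  classical
  obtain ⟨D, hD⟩ : ∃ D, D = G.natDegree := ⟨_, rfl⟩
  obtain ⟨t, ht⟩ : ∃ t, t = w * x⁻¹ ^ κ := ⟨_, rfl⟩
  rw [← ht] at htB ⊢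
  obtain ⟨P, hPd⟩ : ∃ P : k[X][X], P = wrev κ G.natDegree G := ⟨_, rfl⟩
  have hP0 : P.map (evalRingHom 0) = P1 * P2 := by
    rw [hPd, wrev_zero, ← hP]
    rfl
  let e : Fin m × Fin G.natDegree → k[X][X] :=
    fun z => C (X ^ (N - ((z.1 : ℕ) + 1) - κ * (z.2 : ℕ))) * X ^ (z.2 : ℕ)
  have hcard : N * P1.natDegree < Fintype.card (Fin m × Fin G.natDegree) := by
    rw [Fintype.card_prod, Fintype.card_fin, Fintype.card_fin]
    rw [← hD] at hN hm hdeg ⊢
    have hm' : m = N - κ * D := by omega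
    have h5 : N * P1.natDegree ≤ N * (D - 1) := Nat.mul_le_mul_left _ (by omega)
    refine lt_of_le_of_lt h5 ?_
    obtain ⟨d, rfl⟩ : ∃ d, D = d + 1 := ⟨D - 1, by omega⟩
    rw [Nat.add_sub_cancel]
    have h6 : m * (d + 1) + κ * (d + 1) * (d + 1) = N * (d + 1) := by
      rw [← add_mul, hm]
    have h7 : κ * (d + 1) * (d + 1) = N - 1 := by
      rw [hN, Nat.add_sub_cancel, pow_two, mul_assoc]
    rw [h7] at h6
    have h8 : 1 ≤ N := by omega
    have h9 : N * (d + 1) = N * d + N := by ring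
    omega
  obtain ⟨c, u, v, s, hc0, hrel⟩ := exists_rel (N := N) (by omega) hP0 hc h1
    (Fintype.linearCombination k e) hcard
  refine ⟨c, hc0, ?_⟩
  -- evaluation at `(1/x, t)`
  let E : k[X][X] →+* K := eval₂RingHom (eval₂RingHom (algebraMap k K) x⁻¹) t
  have hEC : ∀ p : k[X], E (C p) = eval₂ (algebraMap k K) x⁻¹ p := by
    intro p
    show eval₂ _ _ (C p) = _
    rw [eval₂_C]
    rfl
  have hEX : E X = t := by
    show eval₂ _ _ X = _
    rw [eval₂_X]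
  have hEB : ∀ q : k[X][X], E q ∈ B := by
    intro q
    show eval₂ _ _ q ∈ B
    rw [eval₂_eq_sum_range]
    refine B.toSubring.sum_mem fun j _ => B.mul_mem _ _ ?_ (B.toSubring.pow_mem htB _)
    show eval₂ (algebraMap k K) x⁻¹ (q.coeff j) ∈ B
    rw [eval₂_eq_sum_range]
    exact B.toSubring.sum_mem fun i _ => B.mul_mem _ _ (hQB _) (B.toSubring.pow_mem hxB _)
  have hEm : ∀ p : k[X], E (p.map C) = aeval t p := by
    intro p
    show eval₂ _ _ (p.map C) = _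
    rw [eval₂_map, aeval_def]
    congr 1
    ext y
    show eval₂ (algebraMap k K) x⁻¹ (C y) = _
    rw [eval₂_C]
  have hEP : E P = 0 := by
    have h5 := wrev_ev (algebraMap k K) (w := w) hx0 (κ := κ) (D := G.natDegree) (G := G) rfl M.wt
    rw [← hPd, ← ht] at h5
    have h6 : eval₂ (eval₂RingHom (algebraMap k K) x) w G = 0 := M.zero
    rw [h6] at h5
    exact (mul_eq_zero.1 h5).resolve_left (pow_ne_zero _ hx0)
  -- `(P₁ P₂)(t)` is a multiple of `1/x`
  obtain ⟨b0, hb0B, hb0⟩ : ∃ b0 ∈ B, aeval t (P1 * P2) = x⁻¹ * b0 := by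
    have h5 : (C X : k[X][X]) ∣ (P1 * P2).map C - P := by
      rw [C_dvd_iff_dvd_coeff]
      intro i
      rw [X_dvd_iff, coeff_sub, coeff_map, ← hP0, coeff_map, coeff_sub, coeff_C_zero,
        coe_evalRingHom, ← coeff_zero_eq_eval_zero, sub_self]
    obtain ⟨q, hq⟩ := h5
    refine ⟨E q, hEB q, ?_⟩
    have h6 := congrArg E hq
    rw [map_sub, hEP, sub_zero, hEm, map_mul E (C X) q, hEC, eval₂_X] at h6
    exact h6
  have hsum : ∑ z, algebraMap k K (c z) * (x ^ ((z.1 : ℕ) + 1) * w ^ (z.2 : ℕ)) =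
      x ^ N * E (Fintype.linearCombination k e c) := by
    rw [Fintype.linearCombination_apply, map_sum, mul_sum]
    refine sum_congr rfl fun z _ => ?_
    have h5 : E (c z • e z) = algebraMap k K (c z) *
        (x⁻¹ ^ (N - ((z.1 : ℕ) + 1) - κ * (z.2 : ℕ)) * t ^ (z.2 : ℕ)) := by
      rw [Algebra.smul_def, map_mul]
      congr 1
      · show E (C (C (c z))) = _
        rw [hEC, eval₂_C]
      · show E (C (X ^ (N - ((z.1 : ℕ) + 1) - κ * (z.2 : ℕ))) * X ^ (z.2 : ℕ)) = _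
        rw [map_mul, hEC, eval₂_X_pow, map_pow, hEX]
    rw [h5, ht, mul_pow, ← pow_mul]
    have hle : (z.1 : ℕ) + 1 + κ * (z.2 : ℕ) ≤ N := by
      have h6 := z.1.2
      have h7 : κ * (z.2 : ℕ) ≤ κ * G.natDegree := Nat.mul_le_mul_left _ (le_of_lt z.2.2)
      omega
    have h8 : x ^ N = x ^ (N - ((z.1 : ℕ) + 1) - κ * (z.2 : ℕ)) * x ^ ((z.1 : ℕ) + 1) *
        x ^ (κ * (z.2 : ℕ)) := by
      rw [← pow_add, ← pow_add]
      congr 1
      omega
    rw [h8]
    have h9 : ∀ n : ℕ, x ^ n * x⁻¹ ^ n = 1 := by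
      intro n
      rw [← mul_pow, mul_inv_cancel₀ hx0, one_pow]
    have h10 := h9 (N - ((z.1 : ℕ) + 1) - κ * (z.2 : ℕ))
    have h11 := h9 (κ * (z.2 : ℕ))
    calc algebraMap k K (c z) * (x ^ ((z.1 : ℕ) + 1) * w ^ (z.2 : ℕ)) =
        algebraMap k K (c z) * (x ^ ((z.1 : ℕ) + 1) * w ^ (z.2 : ℕ)) *
          (x ^ (N - ((z.1 : ℕ) + 1) - κ * (z.2 : ℕ)) * x⁻¹ ^ (N - ((z.1 : ℕ) + 1) - κ * (z.2 : ℕ))) *
          (x ^ (κ * (z.2 : ℕ)) * x⁻¹ ^ (κ * (z.2 : ℕ))) := by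
          rw [h10, h11, mul_one, mul_one]
      _ = _ := by ring
  rw [hsum, hrel]
  have h12 : aeval t P2 ^ N * (x ^ N * E ((P1 ^ N).map C * u + P * v + C (X ^ N) * s)) =
      b0 ^ N * E u + aeval t P2 ^ N * E s := by
    rw [map_add, map_add, map_mul, map_mul, map_mul, hEm, hEP, hEC, eval₂_X_pow, map_pow, zero_mul,
      add_zero]
    have h13 : aeval t P2 ^ N * x ^ N * aeval t P1 ^ N = b0 ^ N := by
      rw [← mul_pow, ← mul_pow]
      congr 1
      rw [map_mul] at hb0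
      calc aeval t P2 * x * aeval t P1 = x * (aeval t P1 * aeval t P2) := by ring
        _ = x * (x⁻¹ * b0) := by rw [hb0]
        _ = b0 := by rw [← mul_assoc, mul_inv_cancel₀ hx0, one_mul]
    have h14 : x ^ N * x⁻¹ ^ N = 1 := by
      rw [← mul_pow, mul_inv_cancel₀ hx0, one_pow]
    calc aeval t P2 ^ N * (x ^ N * (aeval t P1 ^ N * E u + x⁻¹ ^ N * E s)) =
        aeval t P2 ^ N * x ^ N * aeval t P1 ^ N * E u + aeval t P2 ^ N * (x ^ N * x⁻¹ ^ N) * E s := by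
          ring
      _ = _ := by rw [h13, h14, mul_one]
  rw [h12]
  refine B.add_mem _ _ (B.mul_mem _ _ (B.toSubring.pow_mem hb0B _) (hEB u))
    (B.mul_mem _ _ (B.toSubring.pow_mem ?_ _) (hEB s))
  rw [← hEm]
  exact hEB _

/-- Runge's theorem in the frame -/
theorem runge_fr {k K : Type*} [Field k] [Field K] [Algebra k K] (Z1 : Subring K)
    (B : ValuationSubring K) (hQB : ∀ c : k, algebraMap k K c ∈ B)
    (hZB : ∀ z ∈ Z1, z ∈ B → ∃ c : k, algebraMap k K c = z)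
    (hden : ∀ c : k, ∃ b : k, b ≠ 0 ∧ algebraMap k K b ∈ Z1 ∧ algebraMap k K (b * c) ∈ Z1)
    {x w : K} (hx : x ∈ Z1) (hw : w ∈ Z1) (hxB : x ∉ B) {κ : ℕ} {G : k[X][X]}
    (M : Model x w κ G) {P1 P2 : k[X]} (hP : lf κ G = P1 * P2) (hc : IsCoprime P1 P2)
    (h1 : 0 < P1.natDegree) (h2 : 0 < P2.natDegree) : False := by
  classical
  have hx0 : x ≠ 0 := by
    rintro rfl
    exact hxB B.zero_mem
  have hxi : x⁻¹ ∈ B := (B.mem_or_inv_mem x).resolve_left hxB
  obtain ⟨t, ht⟩ : ∃ t, t = w * x⁻¹ ^ κ := ⟨_, rfl⟩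
  have hlf : (lf κ G).Monic ∧ (lf κ G).natDegree = G.natDegree := lead_monic M.monic rfl
  have hdegs : P1.natDegree + P2.natDegree = G.natDegree := by
    rw [← hlf.2, hP, natDegree_mul]
    · rintro rfl
      rw [natDegree_zero] at h1
      exact lt_irrefl _ h1
    · rintro rfl
      rw [natDegree_zero] at h2
      exact lt_irrefl _ h2
  have hG : 0 < G.natDegree := by omega
  -- `t ∈ B`
  have htB : t ∈ B := by
    let ψ : k →+* B := (algebraMap k K).codRestrict B.toSubring hQB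
    let φ : k[X] →+* B := eval₂RingHom ψ ⟨x⁻¹, hxi⟩
    have h5 : ((wrev κ G.natDegree G).map φ).Monic := (wrev_monic M.monic rfl).1.map φ
    have h6 : eval₂ (algebraMap B K) t ((wrev κ G.natDegree G).map φ) = 0 := by
      rw [eval₂_map]
      have h7 : (algebraMap B K).comp φ = eval₂RingHom (algebraMap k K) x⁻¹ := by
        ext y
        · show ((eval₂ ψ ⟨x⁻¹, hxi⟩ (C y) : B) : K) = eval₂ (algebraMap k K) x⁻¹ (C y)
          rw [eval₂_C, eval₂_C]
          rfl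
        · show ((eval₂ ψ ⟨x⁻¹, hxi⟩ X : B) : K) = eval₂ (algebraMap k K) x⁻¹ X
          rw [eval₂_X, eval₂_X]
      rw [h7]
      have h8 := wrev_ev (algebraMap k K) (w := w) hx0 (κ := κ) (D := G.natDegree) (G := G) rfl M.wt
      rw [← ht] at h8
      have h9 : eval₂ (eval₂RingHom (algebraMap k K) x) w G = 0 := M.zero
      rw [h9] at h8
      exact (mul_eq_zero.1 h8).resolve_left (pow_ne_zero _ hx0)
    have h7 : IsIntegral B t := ⟨_, h5, h6⟩
    obtain ⟨y, hy⟩ := IsIntegrallyClosed.isIntegral_iff.1 h7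
    rw [← hy]
    exact y.2
  have hP10 : P1 ≠ 0 := by
    rintro rfl
    rw [natDegree_zero] at h1
    exact lt_irrefl _ h1
  have hP20 : P2 ≠ 0 := by
    rintro rfl
    rw [natDegree_zero] at h2
    exact lt_irrefl _ h2
  obtain ⟨N, hN⟩ : ∃ N, N = κ * G.natDegree ^ 2 + 1 := ⟨_, rfl⟩
  have hle : κ * G.natDegree ≤ N := by
    rw [hN]
    have : κ * G.natDegree ≤ κ * G.natDegree ^ 2 :=
      Nat.mul_le_mul_left _ (Nat.le_self_pow (by norm_num) _)
    omega
  obtain ⟨m, hm⟩ : ∃ m, m + κ * G.natDegree = N := ⟨N - κ * G.natDegree, by omega⟩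
  rw [ht] at htB
  obtain ⟨c, hc0, hcB⟩ := rgb_half B hQB hx0 hxi htB M hG hP hc hP10 (by omega) hN hm
  obtain ⟨c', hc0', hcB'⟩ := rgb_half B hQB hx0 hxi htB M hG (hP.trans (mul_comm _ _)) hc.symm hP20
    (by omega) hN hm
  have hk1 := rgb_key Z1 B hQB hZB hden hx hw M hG c hc0
  have hk2 := rgb_key Z1 B hQB hZB hden hx hw M hG c' hc0'
  rw [← ht] at htB hcB hcB'
  obtain ⟨f, hf⟩ : ∃ f, f = ∑ z, algebraMap k K (c z) * (x ^ ((z.1 : ℕ) + 1) * w ^ (z.2 : ℕ)) := ⟨_, rfl⟩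
  obtain ⟨f', hf'⟩ : ∃ f', f' = ∑ z, algebraMap k K (c' z) * (x ^ ((z.1 : ℕ) + 1) * w ^ (z.2 : ℕ)) :=
    ⟨_, rfl⟩
  rw [← hf] at hcB hk1
  rw [← hf'] at hcB' hk2
  obtain ⟨α, β, hab⟩ := (IsCoprime.pow (m := N) (n := N) hc)
  have hpB : ∀ p : k[X], aeval t p ∈ B := by
    intro p
    rw [aeval_def, eval₂_eq_sum_range]
    exact B.toSubring.sum_mem fun i _ => B.mul_mem _ _ (hQB _) (B.toSubring.pow_mem htB _)
  have h5 := congrArg (aeval t) hab
  rw [map_add, map_mul, map_mul, map_pow, map_pow, map_one] at h5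
  -- `f`, `f'` are not bounded, so `P₁(t)^N`, `P₂(t)^N` are in the maximal ideal
  have hval : ∀ y g : K, y * g ∈ B → g ∉ B → B.valuation y < 1 := by
    intro y g hyg hg
    rw [← B.valuation_le_one_iff, not_le] at hg
    rw [← B.valuation_le_one_iff, map_mul] at hyg
    by_contra hy
    rw [not_lt] at hy
    have h6 : 1 * B.valuation g ≤ B.valuation y * B.valuation g := mul_le_mul' hy le_rfl
    rw [one_mul] at h6
    exact absurd (h6.trans hyg) (not_le.2 hg)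
  have hv2 := hval _ _ hcB hk1
  have hv1 := hval _ _ hcB' hk2
  have hmul : ∀ y z : K, y ∈ B → B.valuation z < 1 → B.valuation (y * z) < 1 := by
    intro y z hy hz
    rw [map_mul]
    rw [← B.valuation_le_one_iff] at hy
    exact lt_of_le_of_lt (mul_le_mul' hy le_rfl) (by rwa [one_mul])
  have h6 := B.valuation.map_add_lt (hmul _ _ (hpB α) hv1) (hmul _ _ (hpB β) hv2)
  rw [h5, map_one] at h6
  exact lt_irrefl _ h6

end Pool.Agent.H97.SI
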