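import Pool.Agent.H97.SI.RGB

/-! # [H97 SI STO] ALL OF SIEGEL: the hypothesis of AllCurves for ONE polynomial

`G ∈ ℤ[X][W]` monic in `W` of degree `D`, monomials `X^i W^j` with `i + δ j ≤ δ D`, leading form `lead δ D G = P₀^r`. Every point at infinity has a
residue field containing a root of `P₀`: let `K` be a field of characteristic `0`, `X, W ∈ K((t))`, `G(X, W) = 0`.
* `X ∈ K[[t]]`: `W` is integral over `K[[t]]` (`G` monic), and `K[[t]]` is integrally closed in `K((t))` (`IsIntegrallyClosed.algebraMap_eq_of_integral`,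
  `PowerSeries` is a UFD/normal, fraction ring: `LaurentSeries` instance), so `W ∈ K[[t]]`.
* `X ∉ K[[t]]`: `X⁻¹ ∈ t K[[t]]` (order of `X` negative), `T = W X^(-δ)` satisfies the monic equation `wrev δ D G (X⁻¹, T) = 0` over `K[[t]]` (divide `G(X, W) = 0` by
  `X^(δ D)`, as `wrev_ev`), so `T ∈ K[[t]]`, and its constant coefficient `T(0)` is a root of `lead δ D G = P₀^r` (`X⁻¹` has constant coefficient `0`): apply the ring hom
  `constantCoeff`. So `P₀` has a root in `K`, and `AdjoinRoot.lift` gives `AdjoinRoot (P₀.map ..) →+* K`.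
`toMv G = ∑_(i,j) g_ij X_0^i X_1^j` as element of `MvPolynomial (Fin 2) ℤ`. -/

namespace Pool.Agent.H97.SI

open Finset Polynomial

/-- `G ∈ ℤ[X][W]` as polynomial in two variables -/
noncomputable def toMv (G : ℤ[X][X]) : MvPolynomial (Fin 2) ℤ :=
  eval₂ (eval₂RingHom (Int.castRingHom (MvPolynomial (Fin 2) ℤ)) (MvPolynomial.X 0)) (MvPolynomial.X 1) G

theorem toMv_eval₂ {S : Type*} [CommRing S] (G : ℤ[X][X]) (x w : S) :
    MvPolynomial.eval₂ (Int.castRingHom S) ![x, w] (toMv G) =
      eval₂ (eval₂RingHom (Int.castRingHom S) x) w G := by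
  have h1 : MvPolynomial.eval₂ (Int.castRingHom S) ![x, w] (toMv G) =
      MvPolynomial.eval₂Hom (Int.castRingHom S) ![x, w] (toMv G) := rfl
  rw [h1, toMv, Polynomial.hom_eval₂]
  have h2 : MvPolynomial.eval₂Hom (Int.castRingHom S) ![x, w] (MvPolynomial.X 1) = w := by
    rw [MvPolynomial.coe_eval₂Hom, MvPolynomial.eval₂_X]
    rfl
  have h3 : (MvPolynomial.eval₂Hom (Int.castRingHom S) ![x, w]).comp
      (eval₂RingHom (Int.castRingHom (MvPolynomial (Fin 2) ℤ)) (MvPolynomial.X 0)) =
      eval₂RingHom (Int.castRingHom S) x := by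
    refine Polynomial.ringHom_ext' (RingHom.ext_int _ _) ?_
    rw [RingHom.comp_apply, coe_eval₂RingHom, eval₂_X, coe_eval₂RingHom, eval₂_X,
      MvPolynomial.coe_eval₂Hom, MvPolynomial.eval₂_X]
    rfl
  rw [h2, h3]

private theorem sto_C (c : ℤ) : (Int.castRingHom (MvPolynomial (Fin 2) ℤ)) c =
    MvPolynomial.C c := by
  exact RingHom.congr_fun (RingHom.ext_int (Int.castRingHom (MvPolynomial (Fin 2) ℤ))
    MvPolynomial.C) c

private theorem sto_mono (i j : ℕ) (c : ℤ) : toMv (monomial j (monomial i c)) =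
    MvPolynomial.monomial (Finsupp.single 0 i + Finsupp.single 1 j) c := by
  rw [toMv, eval₂_monomial, coe_eval₂RingHom, eval₂_monomial, sto_C,
    MvPolynomial.X_pow_eq_monomial, MvPolynomial.X_pow_eq_monomial, MvPolynomial.C_mul_monomial,
    MvPolynomial.monomial_mul, mul_one, mul_one]

private theorem sto_coeff (G : ℤ[X][X]) (m : Fin 2 →₀ ℕ) :
    (toMv G).coeff m = (G.coeff (m 1)).coeff (m 0) := by
  classical
  induction G using Polynomial.induction_on' with
  | add p q hp hq =>
    have h1 : toMv (p + q) = toMv p + toMv q := eval₂_add _ _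
    rw [h1, MvPolynomial.coeff_add, hp, hq, coeff_add, coeff_add]
  | monomial j a =>
    induction a using Polynomial.induction_on' with
    | add p q hp hq =>
      have h1 : toMv (monomial j (p + q)) = toMv (monomial j p) + toMv (monomial j q) := by
        rw [map_add]
        exact eval₂_add _ _
      rw [h1, MvPolynomial.coeff_add, hp, hq, map_add, coeff_add, coeff_add]
    | monomial i c =>
      rw [sto_mono, MvPolynomial.coeff_monomial, coeff_monomial]
      by_cases hj : j = m 1
      · rw [if_pos hj, coeff_monomial]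
        by_cases hi : i = m 0
        · rw [if_pos hi, if_pos]
          ext l
          fin_cases l
          · simp [hi]
          · simp [hj]
        · rw [if_neg hi, if_neg]
          intro h
          apply hi
          rw [← h]
          simp
      · rw [if_neg hj, coeff_zero, if_neg]
        intro h
        apply hj
        rw [← h]
        simp

theorem toMv_deg {G : ℤ[X][X]} {δ D : ℕ} (hδ : 1 ≤ δ) (hD : G.natDegree = D)
    (hwt : ∀ j, (G.coeff j).natDegree ≤ δ * (D - j)) : (toMv G).totalDegree ≤ δ * D := by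
  classical
  rw [MvPolynomial.totalDegree]
  refine Finset.sup_le fun m hm => ?_
  rw [MvPolynomial.mem_support_iff, sto_coeff] at hm
  have h1 : m 0 ≤ (G.coeff (m 1)).natDegree := le_natDegree_of_ne_zero hm
  have h2 : m 1 ≤ D := by
    rw [← hD]
    apply le_natDegree_of_ne_zero
    intro h0
    rw [h0, coeff_zero] at hm
    exact hm rfl
  have h3 : m.sum (fun _ e => e) = m 0 + m 1 := by
    rw [Finsupp.sum_fintype _ _ (fun _ => rfl), Fin.sum_univ_two]
  rw [h3]
  have h4 := hwt (m 1)
  calc m 0 + m 1 ≤ δ * (D - m 1) + δ * m 1 :=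
        Nat.add_le_add (h1.trans h4) (Nat.le_mul_of_pos_left _ hδ)
    _ = δ * D := by rw [← Nat.mul_add, Nat.sub_add_cancel h2]

theorem toMv_coeff {G : ℤ[X][X]} {H : ℤ} (hH : ∀ i j, |(G.coeff j).coeff i| ≤ H) (hH0 : 0 ≤ H)
    (m : Fin 2 →₀ ℕ) : |(toMv G).coeff m| ≤ H := by
  rw [sto_coeff]
  exact hH _ _

/-- irreducible over `ℚ` -/
theorem toMv_irr {G : ℤ[X][X]} (h : Irreducible (G.map (mapRingHom (Int.castRingHom ℚ)))) :
    Irreducible (MvPolynomial.map (Int.castRingHom ℚ) (toMv G)) := by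
  let φ : MvPolynomial (Fin 2) ℚ →+* ℚ[X][X] :=
    MvPolynomial.eval₂Hom (C.comp C) ![C X, X]
  let ψ : ℚ[X][X] →+* MvPolynomial (Fin 2) ℚ :=
    eval₂RingHom (eval₂RingHom MvPolynomial.C (MvPolynomial.X 0)) (MvPolynomial.X 1)
  have hφ0 : φ (MvPolynomial.X 0) = C X := by
    show MvPolynomial.eval₂Hom (C.comp C) ![C X, X] (MvPolynomial.X 0) = C X
    rw [MvPolynomial.coe_eval₂Hom, MvPolynomial.eval₂_X]
    rfl
  have hφ1 : φ (MvPolynomial.X 1) = X := by
    show MvPolynomial.eval₂Hom (C.comp C) ![C X, X] (MvPolynomial.X 1) = X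
    rw [MvPolynomial.coe_eval₂Hom, MvPolynomial.eval₂_X]
    rfl
  have hφC : ∀ c : ℚ, φ (MvPolynomial.C c) = C (C c) := by
    intro c
    show MvPolynomial.eval₂Hom (C.comp C) ![C X, X] (MvPolynomial.C c) = C (C c)
    rw [MvPolynomial.coe_eval₂Hom, MvPolynomial.eval₂_C]
    rfl
  have hψX : ψ X = MvPolynomial.X 1 := by
    show eval₂ _ _ _ = _
    rw [eval₂_X]
  have hψCX : ψ (C X) = MvPolynomial.X 0 := by
    show eval₂ _ _ _ = _
    rw [eval₂_C, coe_eval₂RingHom, eval₂_X]
  have hψCC : ∀ c : ℚ, ψ (C (C c)) = MvPolynomial.C c := by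
    intro c
    show eval₂ _ _ _ = _
    rw [eval₂_C, coe_eval₂RingHom, eval₂_C]
  have h1 : φ.comp ψ = RingHom.id _ := by
    refine Polynomial.ringHom_ext' (Polynomial.ringHom_ext' (RingHom.ext fun c => ?_) ?_) ?_
    · show φ (ψ (C (C c))) = C (C c)
      rw [hψCC, hφC]
    · show φ (ψ (C X)) = C X
      rw [hψCX, hφ0]
    · show φ (ψ X) = X
      rw [hψX, hφ1]
  have h2 : ψ.comp φ = RingHom.id _ := by
    refine MvPolynomial.ringHom_ext (fun c => ?_) (fun i => ?_)
    · show ψ (φ (MvPolynomial.C c)) = MvPolynomial.C c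
      rw [hφC, hψCC]
    · fin_cases i
      · show ψ (φ (MvPolynomial.X 0)) = MvPolynomial.X 0
        rw [hφ0, hψCX]
      · show ψ (φ (MvPolynomial.X 1)) = MvPolynomial.X 1
        rw [hφ1, hψX]
  let e : MvPolynomial (Fin 2) ℚ ≃+* ℚ[X][X] := RingEquiv.ofRingHom φ ψ h1 h2
  have h3 : e (MvPolynomial.map (Int.castRingHom ℚ) (toMv G)) =
      G.map (mapRingHom (Int.castRingHom ℚ)) := by
    show MvPolynomial.eval₂Hom (C.comp C) ![C X, X]
      (MvPolynomial.map (Int.castRingHom ℚ) (toMv G)) = _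
    rw [MvPolynomial.eval₂Hom_map_hom]
    have h4 : ((C : ℚ[X] →+* ℚ[X][X]).comp C).comp (Int.castRingHom ℚ) =
        Int.castRingHom (ℚ[X][X]) := RingHom.ext_int _ _
    rw [h4, MvPolynomial.coe_eval₂Hom, toMv_eval₂]
    have h5 : eval₂RingHom (Int.castRingHom (ℚ[X][X])) (C X) =
        (C : ℚ[X] →+* ℚ[X][X]).comp (mapRingHom (Int.castRingHom ℚ)) := by
      refine Polynomial.ringHom_ext' (RingHom.ext_int _ _) ?_
      rw [coe_eval₂RingHom, eval₂_X, RingHom.comp_apply, coe_mapRingHom, map_X]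
    rw [h5]
    rfl
  rw [← h3] at h
  exact (MulEquiv.irreducible_iff e).1 h

/-- the condition at infinity -/
theorem star_one {G : ℤ[X][X]} {δ D r : ℕ} (hm : G.Monic) (hD : G.natDegree = D)
    (hwt : ∀ j, (G.coeff j).natDegree ≤ δ * (D - j)) {P0 : ℤ[X]}
    (hP : lead δ D G = P0 ^ r) (K : Type) [Field K] [CharZero K] (X Y : LaurentSeries K)
    (h0 : MvPolynomial.eval₂ (Int.castRingHom (LaurentSeries K)) ![X, Y] (toMv G) = 0) :
    (X ∈ (HahnSeries.ofPowerSeries ℤ K).range ∧ Y ∈ (HahnSeries.ofPowerSeries ℤ K).range) ∨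
      ∃ z : K, aeval z P0 = 0 := by
  rw [toMv_eval₂] at h0
  have hal : ∀ u : PowerSeries K, HahnSeries.ofPowerSeries ℤ K u =
      algebraMap (PowerSeries K) (LaurentSeries K) u := fun u => rfl
  -- elements which are roots of monic polynomials
  have hint : ∀ (Q : ℤ[X][X]) (u : PowerSeries K) (T : LaurentSeries K), Q.Monic →
      eval₂ (eval₂RingHom (Int.castRingHom (LaurentSeries K))
        (algebraMap (PowerSeries K) (LaurentSeries K) u)) T Q = 0 →
      ∃ τ : PowerSeries K, algebraMap (PowerSeries K) (LaurentSeries K) τ = T ∧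
        eval₂ (eval₂RingHom (Int.castRingHom (PowerSeries K)) u) τ Q = 0 := by
    intro Q u T hQ hT
    have hcomp : eval₂RingHom (Int.castRingHom (LaurentSeries K))
        (algebraMap (PowerSeries K) (LaurentSeries K) u) =
        (algebraMap (PowerSeries K) (LaurentSeries K)).comp
          (eval₂RingHom (Int.castRingHom (PowerSeries K)) u) := by
      refine Polynomial.ringHom_ext' (RingHom.ext_int _ _) ?_
      rw [coe_eval₂RingHom, eval₂_X, RingHom.comp_apply, coe_eval₂RingHom, eval₂_X]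
    rw [hcomp] at hT
    have h1 : IsIntegral (PowerSeries K) T := by
      refine ⟨Q.map (eval₂RingHom (Int.castRingHom (PowerSeries K)) u), hQ.map _, ?_⟩
      rw [eval₂_map]
      exact hT
    obtain ⟨τ, hτ⟩ := IsIntegrallyClosed.isIntegral_iff.1 h1
    refine ⟨τ, hτ, ?_⟩
    rw [← hτ, ← hom_eval₂] at hT
    exact (map_eq_zero_iff _ (IsFractionRing.injective (PowerSeries K) (LaurentSeries K))).1 hT
  by_cases hX : X ∈ (HahnSeries.ofPowerSeries ℤ K).range
  · left
    refine ⟨hX, ?_⟩
    obtain ⟨u, rfl⟩ := hX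
    obtain ⟨τ, hτ, -⟩ := hint G u Y hm h0
    exact ⟨τ, hτ⟩
  · right
    have hX0 : X ≠ 0 := by
      rintro rfl
      exact hX ⟨0, map_zero _⟩
    obtain ⟨u, hu⟩ : ∃ u : PowerSeries K,
        algebraMap (PowerSeries K) (LaurentSeries K) u = X⁻¹ := by
      rcases ValuationRing.isInteger_or_isInteger (PowerSeries K) X with h1 | h1
      · exact absurd h1 hX
      · exact h1
    have hu0 : PowerSeries.constantCoeff u = 0 := by
      by_contra hne
      have h1 : IsUnit u := by
        rw [PowerSeries.isUnit_iff_constantCoeff]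
        exact isUnit_iff_ne_zero.2 hne
      obtain ⟨v, hv⟩ := h1.exists_right_inv
      apply hX
      refine ⟨v, ?_⟩
      have h2 := congrArg (algebraMap (PowerSeries K) (LaurentSeries K)) hv
      rw [map_mul, map_one, hu] at h2
      rw [hal]
      have h3 : X⁻¹⁻¹ = algebraMap (PowerSeries K) (LaurentSeries K) v :=
        inv_eq_of_mul_eq_one_right h2
      rw [← h3, inv_inv]
    have h1 := wrev_ev (Int.castRingHom (LaurentSeries K)) (w := Y) hX0 (κ := δ) hD hwt
    rw [h0] at h1
    have h2 := (mul_eq_zero.1 h1).resolve_left (pow_ne_zero _ hX0)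
    rw [← hu] at h2
    obtain ⟨τ, -, hτ⟩ := hint (wrev δ D G) u _ (wrev_monic hm hD).1 h2
    have h3 := congrArg (PowerSeries.constantCoeff (R := K)) hτ
    rw [hom_eval₂, map_zero] at h3
    have h4 : (PowerSeries.constantCoeff (R := K)).comp
        (eval₂RingHom (Int.castRingHom (PowerSeries K)) u) =
        (Int.castRingHom K).comp (evalRingHom 0) := by
      refine Polynomial.ringHom_ext' (RingHom.ext_int _ _) ?_
      rw [RingHom.comp_apply, coe_eval₂RingHom, eval₂_X, hu0, RingHom.comp_apply,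
        coe_evalRingHom, eval_X, map_zero]
    rw [h4, ← eval₂_map, wrev_zero, hP, eval₂_pow] at h3
    refine ⟨PowerSeries.constantCoeff τ, ?_⟩
    rw [aeval_def, algebraMap_int_eq]
    exact eq_zero_of_pow_eq_zero h3

end Pool.Agent.H97.SI
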