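import Pool.Agent.H97.SI.TRB
import Pool.Agent.H97.SI.RGC

/-! # [H97 SI TRC] ALL OF SIEGEL: from the model over `Q0 H` to almost all members

`M : Model x w κ G`, `x = cl xs`, `w = cl ws`, `xs, ws` integers; `lf κ G = P₀^r`. Let `b ∈ ZS ∩ Q0 H`, `b ≠ 0`, be a common denominator of all coefficients of `G` and of
`P₀` (`q0_den`, induction). SCALING: `G' = scaleRoots G (C b)` (coefficients `G.coeff j * b^(D - j)`), `P₀' = scaleRoots P₀ b`: monic, the same degrees and weights, all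
coefficients in `ZS`, `G'(x, b w) = 0` (`scaleRoots_eval₂..` or directly: `∑_j G_j(x) b^(D-j) (b w)^j = b^D G(x, w)`), `lead κ D G' = scaleRoots (lead κ D G) b = P₀'^r`
(`scaleRoots` is multiplicative for monic polynomials: `Polynomial.mul_scaleRoots_of_noZeroDivisors`), `G'` and `P₀'` are irreducible: for `b ≠ 0` in a field `scaleRoots` is
`p ↦ b^deg p(T/b)`; only `MIrr` is needed: a monic factorisation of `G'` gives one of `G` (scale back by `b⁻¹`). `MIrr G`: if `G = A B`, monic, `≠ 1`, then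
`ev x w A * ev x w B = 0`, and `A`, `B` have smaller degree: contradiction to `M.min`.
MEMBERS: `zs_rep` for the finitely many coefficients of `G'` and `P₀'`: integer sequences bounded by `(H N + 2)^C`: `𝒢 ∈ (ℕ → ℤ)[X][X]` (monic of degree `D`, coefficient `j` of
degree `≤ κ (D - j)` by construction: use the support of the coefficients of `G'`), `𝒫 ∈ (ℕ → ℤ)[X]`, and their images over `ℕ → ℚ`. `g = 𝒢_N`, `p = 𝒫_N`.
Irreducibility: `irrm2`, `irrm1`, `mirr_iff` (over `ℚ[X]`, `ℚ`). `lead κ D g = p^r` for almost all `N`: `eq1`. Zero: `ev_cl`, `cl_eq`. `b = cl b_N`, `b_N ≠ 0` for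
almost all `N`. -/

namespace Pool.Agent.H97.SI

open Filter Finset Polynomial Pool.Agent.H82.NS Pool.Agent.H37.SI

/-- apply a function to all coefficients -/
private noncomputable def lft {R S : Type*} [Semiring R] [Semiring S] (L : R → S) (Q : R[X]) :
    S[X] :=
  ∑ i ∈ range (Q.natDegree + 1), monomial i (L (Q.coeff i))

private theorem lft_coeff {R S : Type*} [Semiring R] [Semiring S] {L : R → S} (h0 : L 0 = 0)
    (Q : R[X]) (i : ℕ) : (lft L Q).coeff i = L (Q.coeff i) := by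
  unfold lft
  rw [finsetSum_coeff]
  simp only [coeff_monomial]
  rw [Finset.sum_ite_eq']
  by_cases h : i ∈ range (Q.natDegree + 1)
  · rw [if_pos h]
  · rw [if_neg h, coeff_eq_zero_of_natDegree_lt (by rw [mem_range] at h; omega), h0]

private theorem lft_zero {R S : Type*} [Semiring R] [Semiring S] {L : R → S} (h0 : L 0 = 0) :
    lft L (0 : R[X]) = 0 := by
  ext i
  rw [lft_coeff h0, coeff_zero, h0, coeff_zero]

private theorem lft_one {R S : Type*} [Semiring R] [Semiring S] {L : R → S} (h0 : L 0 = 0)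
    (h1 : L 1 = 1) : lft L (1 : R[X]) = 1 := by
  ext i
  rw [lft_coeff h0, coeff_one, coeff_one]
  split_ifs
  · exact h1
  · exact h0

private theorem lft_natDegree_le {R S : Type*} [Semiring R] [Semiring S] {L : R → S}
    (h0 : L 0 = 0) (Q : R[X]) : (lft L Q).natDegree ≤ Q.natDegree := by
  rw [natDegree_le_iff_coeff_eq_zero]
  intro i hi
  rw [lft_coeff h0, coeff_eq_zero_of_natDegree_lt hi, h0]

private theorem lft_monic {R S : Type*} [Semiring R] [Semiring S] [Nontrivial S] {L : R → S}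
    (h0 : L 0 = 0) (h1 : L 1 = 1) {Q : R[X]} (hQ : Q.Monic) :
    (lft L Q).Monic ∧ (lft L Q).natDegree = Q.natDegree := by
  have h2 : (lft L Q).coeff Q.natDegree = 1 := by
    rw [lft_coeff h0, hQ.coeff_natDegree, h1]
  have h3 : (lft L Q).natDegree = Q.natDegree := by
    refine le_antisymm (lft_natDegree_le h0 Q) ?_
    apply le_natDegree_of_ne_zero
    rw [h2]
    exact one_ne_zero
  refine ⟨?_, h3⟩
  unfold Monic leadingCoeff
  rw [h3, h2]

private theorem mirr_scale {R : Type*} [CommRing R] [IsDomain R] {G : R[X]} (h : MIrr G)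
    {s t : R} (hst : s * t = 1) : MIrr (G.scaleRoots s) := by
  intro A B hA hB hAB
  have h1 : A.scaleRoots t * B.scaleRoots t = G := by
    rw [← mul_scaleRoots_of_noZeroDivisors, hAB, ← scaleRoots_mul, hst, scaleRoots_one]
  have h2 : ∀ A : R[X], A.Monic → A.scaleRoots t = 1 → A = 1 := by
    intro A hA h
    have h3 : A.natDegree = 0 := by
      rw [← natDegree_scaleRoots A t, h, natDegree_one]
    exact hA.natDegree_eq_zero.1 h3
  rcases h _ _ ((monic_scaleRoots_iff t).2 hA) ((monic_scaleRoots_iff t).2 hB) h1 with h3 | h3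
  · exact Or.inl (h2 A hA h3)
  · exact Or.inr (h2 B hB h3)

private theorem lead_map {R S : Type*} [CommRing R] [CommRing S] (φ : R →+* S) (κ D : ℕ)
    (G : R[X][X]) : (lead κ D G).map φ = lead κ D (G.map (mapRingHom φ)) := by
  unfold lead
  rw [Polynomial.map_sum]
  refine Finset.sum_congr rfl fun j _ => ?_
  rw [Polynomial.map_mul, map_C, Polynomial.map_pow, map_X, coeff_map, coe_mapRingHom, coeff_map]

private theorem lead_coeff {R : Type*} [CommRing R] (κ D : ℕ) (G : R[X][X]) (i : ℕ) :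
    (lead κ D G).coeff i = if i ≤ D then (G.coeff i).coeff (κ * (D - i)) else 0 := by
  unfold lead
  rw [finsetSum_coeff]
  simp only [coeff_C_mul_X_pow]
  rw [Finset.sum_ite_eq]
  simp only [mem_range, Nat.lt_succ_iff]

/-- integral sequences representing the elements of `ZS ∩ Q0 H` -/
private theorem exists_L (H : ℕ → ℕ) : ∃ (L : Q0 H → ℕ → ℤ) (E : Q0 H → ℕ), L 0 = 0 ∧ L 1 = 1 ∧
    ∀ c : Q0 H, (c : QS) ∈ ZS → ((c : QS) = cl (fun N => (L c N : ℚ)) ∧
      ∀ N, |L c N| ≤ ((H N + 2 : ℕ) : ℤ) ^ E c) := by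
  classical
  have h : ∀ c : Q0 H, ∃ (a : ℕ → ℤ) (C : ℕ), (c = 0 → a = 0) ∧ (c = 1 → a = 1) ∧
      ((c : QS) ∈ ZS → ((c : QS) = cl (fun N => (a N : ℚ)) ∧
        ∀ N, |a N| ≤ ((H N + 2 : ℕ) : ℤ) ^ C)) := by
    intro c
    have hp : ∀ N, (1 : ℤ) ≤ ((H N + 2 : ℕ) : ℤ) ^ 0 := fun N => by rw [pow_zero]
    by_cases h0 : c = 0
    · refine ⟨0, 0, fun _ => rfl, fun h1 => ?_, fun _ => ⟨?_, fun N => ?_⟩⟩
      · rw [h0] at h1
        exact absurd h1 zero_ne_one
      · rw [h0]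
        show (0 : QS) = _
        rw [cl_zero, cl_eq]
        exact Eventually.of_forall fun N => by simp
      · simp
    · by_cases h1 : c = 1
      · refine ⟨1, 0, fun h => absurd h h0, fun _ => rfl, fun _ => ⟨?_, fun N => ?_⟩⟩
        · rw [h1]
          show (1 : QS) = _
          rw [cl_one, cl_eq]
          exact Eventually.of_forall fun N => by simp
        · simp
      · by_cases hz : (c : QS) ∈ ZS
        · obtain ⟨C, a, ha1, ha2⟩ := zs_rep H hz c.2
          exact ⟨a, C, fun h => absurd h h0, fun h => absurd h h1, fun _ => ⟨ha1, ha2⟩⟩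
        · exact ⟨0, 0, fun h => absurd h h0, fun h => absurd h h1, fun h => absurd h hz⟩
  choose L E hL using h
  exact ⟨L, E, (hL 0).1 rfl, (hL 1).2.1 rfl, fun c hc => (hL c).2.2 hc⟩

/-- common denominator -/
private theorem den_fin (H : ℕ → ℕ) (T : Finset (Q0 H)) : ∃ b : Q0 H, b ≠ 0 ∧ (b : QS) ∈ ZS ∧
    ∀ c ∈ T, ((b * c : Q0 H) : QS) ∈ ZS := by
  classical
  induction T using Finset.induction_on with
  | empty =>
    exact ⟨1, one_ne_zero, ZS.one_mem, fun c hc => absurd hc (Finset.notMem_empty c)⟩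
  | insert a T ha ih =>
    obtain ⟨b, h1, h2, h3⟩ := ih
    obtain ⟨b', k1, k2, k3⟩ := q0_den H a
    refine ⟨b * b', mul_ne_zero h1 k1, ZS.mul_mem h2 k2, fun c hc => ?_⟩
    rcases Finset.mem_insert.1 hc with rfl | hc
    · rw [mul_assoc]
      exact ZS.mul_mem h2 k3
    · have e : b * b' * c = b' * (b * c) := by ring
      rw [e]
      exact ZS.mul_mem k2 (h3 c hc)

/-- scaling makes a monic polynomial integral -/
private theorem scale_int {H : ℕ → ℕ} {b : Q0 H} (hb : (b : QS) ∈ ZS) {Q : (Q0 H)[X]} (hQ : Q.Monic)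
    (hc : ∀ i, ((b * Q.coeff i : Q0 H) : QS) ∈ ZS) (i : ℕ) :
    (((Q.scaleRoots b).coeff i : Q0 H) : QS) ∈ ZS := by
  rw [coeff_scaleRoots]
  rcases lt_trichotomy i Q.natDegree with h | h | h
  · obtain ⟨e, he⟩ : ∃ e, Q.natDegree - i = e + 1 := ⟨Q.natDegree - i - 1, by omega⟩
    rw [he]
    have e1 : Q.coeff i * b ^ (e + 1) = b * Q.coeff i * b ^ e := by ring
    rw [e1]
    exact ZS.mul_mem (hc i) (ZS.pow_mem hb e)
  · rw [h, hQ.coeff_natDegree, Nat.sub_self, pow_zero, mul_one]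
    exact ZS.one_mem
  · rw [coeff_eq_zero_of_natDegree_lt h, zero_mul]
    exact ZS.zero_mem

private theorem scale_int2 {H : ℕ → ℕ} {b : Q0 H} (hb : (b : QS) ∈ ZS) {Q : (Q0 H)[X][X]}
    (hQ : Q.Monic) (hc : ∀ i j, ((b * (Q.coeff j).coeff i : Q0 H) : QS) ∈ ZS) (i j : ℕ) :
    ((((Q.scaleRoots (C b)).coeff j).coeff i : Q0 H) : QS) ∈ ZS := by
  rw [coeff_scaleRoots]
  rcases lt_trichotomy j Q.natDegree with h | h | h
  · obtain ⟨e, he⟩ : ∃ e, Q.natDegree - j = e + 1 := ⟨Q.natDegree - j - 1, by omega⟩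
    rw [he, ← C_pow, coeff_mul_C]
    have e1 : (Q.coeff j).coeff i * b ^ (e + 1) = b * (Q.coeff j).coeff i * b ^ e := by ring
    rw [e1]
    exact ZS.mul_mem (hc i j) (ZS.pow_mem hb e)
  · rw [h, hQ.coeff_natDegree, Nat.sub_self, pow_zero, mul_one, coeff_one]
    split_ifs
    · exact ZS.one_mem
    · exact ZS.zero_mem
  · rw [coeff_eq_zero_of_natDegree_lt h, zero_mul, coeff_zero]
    exact ZS.zero_mem

/-- the bound for the coefficients -/
private theorem bnd1 {H : ℕ → ℕ} {L : Q0 H → ℕ → ℤ} {E : Q0 H → ℕ} (h0 : L 0 = 0) (Q : (Q0 H)[X])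
    (hL : ∀ i N, |L (Q.coeff i) N| ≤ ((H N + 2 : ℕ) : ℤ) ^ E (Q.coeff i)) :
    ∃ C : ℕ, ∀ i N, |L (Q.coeff i) N| ≤ ((H N + 2 : ℕ) : ℤ) ^ C := by
  refine ⟨∑ i ∈ range (Q.natDegree + 1), E (Q.coeff i), fun i N => ?_⟩
  have h1 : (1 : ℤ) ≤ ((H N + 2 : ℕ) : ℤ) := by push_cast; omega
  by_cases h : i ≤ Q.natDegree
  · refine (hL i N).trans (pow_le_pow_right₀ h1 ?_)
    exact Finset.single_le_sum (f := fun i => E (Q.coeff i)) (fun _ _ => Nat.zero_le _)
      (mem_range.2 (by omega))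
  · rw [coeff_eq_zero_of_natDegree_lt (by omega), h0]
    show |(0 : ℤ)| ≤ _
    rw [abs_zero]
    positivity

private theorem bnd2 {H : ℕ → ℕ} {L : Q0 H → ℕ → ℤ} {E : Q0 H → ℕ} (h0 : L 0 = 0)
    (Q : (Q0 H)[X][X])
    (hL : ∀ i j N, |L ((Q.coeff j).coeff i) N| ≤ ((H N + 2 : ℕ) : ℤ) ^ E ((Q.coeff j).coeff i)) :
    ∃ C : ℕ, ∀ i j N, |L ((Q.coeff j).coeff i) N| ≤ ((H N + 2 : ℕ) : ℤ) ^ C := by
  have h2 : ∀ j, ∃ C : ℕ, ∀ i N, |L ((Q.coeff j).coeff i) N| ≤ ((H N + 2 : ℕ) : ℤ) ^ C :=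
    fun j => bnd1 h0 (Q.coeff j) fun i N => hL i j N
  choose C hC using h2
  refine ⟨∑ j ∈ range (Q.natDegree + 1), C j, fun i j N => ?_⟩
  have h1 : (1 : ℤ) ≤ ((H N + 2 : ℕ) : ℤ) := by push_cast; omega
  by_cases h : j ≤ Q.natDegree
  · refine (hC j i N).trans (pow_le_pow_right₀ h1 ?_)
    exact Finset.single_le_sum (f := fun i => C i) (fun _ _ => Nat.zero_le _)
      (mem_range.2 (by omega))
  · rw [coeff_eq_zero_of_natDegree_lt (by omega : Q.natDegree < j), coeff_zero, h0]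
    show |(0 : ℤ)| ≤ _
    rw [abs_zero]
    positivity

/-- sequences of integers as sequences of rational numbers -/
private noncomputable def rho : (ℕ → ℤ) →+* (ℕ → ℚ) := (Int.castRingHom ℚ).compLeft ℕ

private theorem rho_apply (a : ℕ → ℤ) (N : ℕ) : rho a N = (a N : ℚ) := rfl

theorem member {H : ℕ → ℕ} {xs ws : ℕ → ℤ} {κ : ℕ} {G : (Q0 H)[X][X]}
    (M : Model (cl fun N => (xs N : ℚ)) (cl fun N => (ws N : ℚ)) κ G) {P0 : (Q0 H)[X]} {r : ℕ}
    (hm : P0.Monic) (hi : Irreducible P0) (h3 : 3 ≤ P0.natDegree) (hr : 1 ≤ r)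
    (hl : lf κ G = P0 ^ r) :
    ∃ C : ℕ, ∀ᶠ N in UU, ∃ (g : ℤ[X][X]) (p : ℤ[X]) (b : ℤ), g.Monic ∧
      g.natDegree = G.natDegree ∧ (∀ j, (g.coeff j).natDegree ≤ κ * (g.natDegree - j)) ∧
      Irreducible (g.map (mapRingHom (Int.castRingHom ℚ))) ∧ p.Monic ∧
      Irreducible (p.map (Int.castRingHom ℚ)) ∧ 3 ≤ p.natDegree ∧
      lead κ g.natDegree g = p ^ r ∧
      (∀ i j, |(g.coeff j).coeff i| ≤ ((H N + 2 : ℕ) : ℤ) ^ C) ∧
      (∀ i, |p.coeff i| ≤ ((H N + 2 : ℕ) : ℤ) ^ C) ∧ b ≠ 0 ∧ |b| ≤ ((H N + 2 : ℕ) : ℤ) ^ C ∧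
      evalEval (xs N) (b * ws N) g = 0 := by
  classical
  obtain ⟨D, hD⟩ : ∃ D, D = G.natDegree := ⟨_, rfl⟩
  -- the denominator
  obtain ⟨T, hT1, hT2⟩ : ∃ T : Finset (Q0 H), (∀ i j, (G.coeff j).coeff i ∈ T) ∧
      ∀ i, P0.coeff i ∈ T := by
    refine ⟨insert 0 ((range (G.natDegree + 1)).biUnion (fun j =>
      (range ((G.coeff j).natDegree + 1)).image fun i => (G.coeff j).coeff i) ∪
        (range (P0.natDegree + 1)).image fun i => P0.coeff i), fun i j => ?_, fun i => ?_⟩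
    · by_cases h : (G.coeff j).coeff i = 0
      · rw [h]
        exact Finset.mem_insert_self _ _
      · refine Finset.mem_insert_of_mem (Finset.mem_union_left _ (Finset.mem_biUnion.2 ⟨j, ?_,
          Finset.mem_image.2 ⟨i, ?_, rfl⟩⟩))
        · rw [mem_range, Nat.lt_succ_iff]
          apply le_natDegree_of_ne_zero
          intro h1
          rw [h1, coeff_zero] at h
          exact h rfl
        · rw [mem_range, Nat.lt_succ_iff]
          exact le_natDegree_of_ne_zero h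
    · by_cases h : P0.coeff i = 0
      · rw [h]
        exact Finset.mem_insert_self _ _
      · refine Finset.mem_insert_of_mem (Finset.mem_union_right _ (Finset.mem_image.2 ⟨i, ?_, rfl⟩))
        rw [mem_range, Nat.lt_succ_iff]
        exact le_natDegree_of_ne_zero h
  obtain ⟨b, hb0, hbZ, hbT⟩ := den_fin H T
  obtain ⟨G', hG'⟩ : ∃ G', G' = G.scaleRoots (C b) := ⟨_, rfl⟩
  obtain ⟨P', hP'⟩ : ∃ P', P' = P0.scaleRoots b := ⟨_, rfl⟩
  have hG'm : G'.Monic := by
    rw [hG']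
    exact (monic_scaleRoots_iff _).2 M.monic
  have hP'm : P'.Monic := by
    rw [hP']
    exact (monic_scaleRoots_iff _).2 hm
  have hG'd : G'.natDegree = D := by rw [hG', natDegree_scaleRoots, hD]
  have hP'd : P'.natDegree = P0.natDegree := by rw [hP', natDegree_scaleRoots]
  have hG'Z : ∀ i j, (((G'.coeff j).coeff i : Q0 H) : QS) ∈ ZS := by
    intro i j
    rw [hG']
    exact scale_int2 hbZ M.monic (fun i j => hbT _ (hT1 i j)) i j
  have hP'Z : ∀ i, ((P'.coeff i : Q0 H) : QS) ∈ ZS := by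
    intro i
    rw [hP']
    exact scale_int hbZ hm (fun i => hbT _ (hT2 i)) i
  have hbb : (b : Q0 H) * b⁻¹ = 1 := mul_inv_cancel₀ hb0
  -- irreducibility
  have hGirr : MIrr G := by
    intro A B hA hB hAB
    have h1 : ev (cl fun N => (xs N : ℚ)) (cl fun N => (ws N : ℚ)) A *
        ev (cl fun N => (xs N : ℚ)) (cl fun N => (ws N : ℚ)) B = 0 := by
      have h2 := M.zero
      rw [← hAB] at h2
      unfold ev at h2 ⊢
      rwa [eval₂_mul] at h2
    have hdeg : A.natDegree + B.natDegree = G.natDegree := by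
      rw [← hAB, hA.natDegree_mul hB]
    rcases mul_eq_zero.1 h1 with h2 | h2
    · right
      have h3 : ¬ A.natDegree < G.natDegree := fun h => hA.ne_zero (M.min A h h2)
      exact hB.natDegree_eq_zero.1 (by omega)
    · left
      have h3 : ¬ B.natDegree < G.natDegree := fun h => hB.ne_zero (M.min B h h2)
      exact hA.natDegree_eq_zero.1 (by omega)
  have hG'irr : MIrr G' := by
    rw [hG']
    refine mirr_scale hGirr (t := C b⁻¹) ?_
    rw [← C_mul, hbb, C_1]
  have hP'irr : MIrr P' := by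
    rw [hP']
    exact mirr_scale ((mirr_iff hm (by omega)).2 hi) hbb
  -- the leading form
  have hlf : lead κ D G = P0 ^ r := by
    rw [← hl, hD]
    rfl
  have hD1 : 1 ≤ D := by
    have h1 := (lead_monic (κ := κ) M.monic hD.symm).2
    rw [hlf, hm.natDegree_pow] at h1
    rw [← h1]
    exact Nat.mul_pos hr (by omega)
  have hlG' : lead κ D G' = P' ^ r := by
    rw [hP', ← pow_scaleRoots_of_isReduced, ← hlf]
    ext i
    rw [coeff_scaleRoots, lead_coeff, lead_coeff, (lead_monic (κ := κ) M.monic hD.symm).2]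
    split_ifs with h
    · rw [hG', coeff_scaleRoots, ← hD, ← C_pow, coeff_mul_C]
    · rw [zero_mul]
  -- the equation
  have hz0 : eval₂ (eval₂RingHom (algebraMap (Q0 H) QS) (cl fun N => (xs N : ℚ)))
      ((b : QS) * cl fun N => (ws N : ℚ)) G' = 0 := by
    have h1 := scaleRoots_eval₂_mul (p := G)
      (eval₂RingHom (algebraMap (Q0 H) QS) (cl fun N => (xs N : ℚ)))
      (cl fun N => (ws N : ℚ)) (C b)
    have h2 : (eval₂RingHom (algebraMap (Q0 H) QS) (cl fun N => (xs N : ℚ))) (C b) = (b : QS) := by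
      rw [coe_eval₂RingHom, eval₂_C]
      rfl
    rw [h2] at h1
    rw [hG', h1]
    have h3 : eval₂ (eval₂RingHom (algebraMap (Q0 H) QS) (cl fun N => (xs N : ℚ)))
        (cl fun N => (ws N : ℚ)) G = 0 := M.zero
    rw [h3, mul_zero]
  -- representatives
  obtain ⟨L, E, hL0, hL1, hL⟩ := exists_L H
  have hLL0 : lft L (0 : (Q0 H)[X]) = 0 := lft_zero hL0
  have hLL1 : lft L (1 : (Q0 H)[X]) = 1 := lft_one hL0 hL1
  obtain ⟨C1, hC1⟩ := bnd2 (E := E) hL0 G' (fun i j N => (hL _ (hG'Z i j)).2 N)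
  obtain ⟨C2, hC2⟩ := bnd1 (E := E) hL0 P' (fun i N => (hL _ (hP'Z i)).2 N)
  obtain ⟨hb1, hb2⟩ := hL b hbZ
  obtain ⟨GG, hGG⟩ : ∃ GG, GG = lft (lft L) G' := ⟨_, rfl⟩
  obtain ⟨PP, hPP⟩ : ∃ PP, PP = lft L P' := ⟨_, rfl⟩
  have hGGc : ∀ i j, (GG.coeff j).coeff i = L ((G'.coeff j).coeff i) := by
    intro i j
    rw [hGG, lft_coeff hLL0, lft_coeff hL0]
  have hPPc : ∀ i, PP.coeff i = L (P'.coeff i) := by
    intro i
    rw [hPP, lft_coeff hL0]
  have hGGm := lft_monic hLL0 hLL1 hG'm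
  rw [← hGG] at hGGm
  have hPPm := lft_monic hL0 hL1 hP'm
  rw [← hPP] at hPPm
  have hGmap : (GG.map (mapRingHom rho)).map (mapRingHom (clH ℚ)) =
      G'.map (mapRingHom (algebraMap (Q0 H) QS)) := by
    ext j i
    simp only [coeff_map, coe_mapRingHom]
    rw [hGGc]
    exact (hL _ (hG'Z i j)).1.symm
  have hPmap : (PP.map rho).map (clH ℚ) = P'.map (algebraMap (Q0 H) QS) := by
    ext i
    simp only [coeff_map]
    rw [hPPc]
    exact (hL _ (hP'Z i)).1.symm
  have hgN : ∀ N, (GG.map (mapRingHom rho)).map (mapRingHom (evN ℚ N)) =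
      (GG.map (mapRingHom (evN ℤ N))).map (mapRingHom (Int.castRingHom ℚ)) := by
    intro N
    ext j i
    simp only [coeff_map, coe_mapRingHom]
    rfl
  have hpN : ∀ N, (PP.map rho).map (evN ℚ N) = (PP.map (evN ℤ N)).map (Int.castRingHom ℚ) := by
    intro N
    ext i
    simp only [coeff_map]
    rfl
  -- the four statements for almost all members
  have e1 := irrm2 hG'm hG'irr hGmap
  have e2 := irrm1 hP'm hP'irr hPmap
  have e3 : ∀ᶠ N in UU, (lead κ D (GG.map (mapRingHom rho))).map (evN ℚ N) =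
      ((PP.map rho) ^ r).map (evN ℚ N) := by
    rw [← eq1, lead_map, hGmap, Polynomial.map_pow, hPmap, ← lead_map, hlG', Polynomial.map_pow]
  have e4 : ∀ᶠ N in UU, evalEval ((xs N : ℤ) : ℚ) (((L b N * ws N : ℤ)) : ℚ)
      ((GG.map (mapRingHom rho)).map (mapRingHom (evN ℚ N))) = 0 := by
    rw [eval₂_eval₂RingHom_apply, ← hGmap, hb1] at hz0
    have h1 : (cl fun N => (L b N : ℚ)) * (cl fun N => (ws N : ℚ)) =
        cl fun N => ((L b N * ws N : ℤ) : ℚ) := by
      rw [cl_mul]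
      congr 1
      funext N
      push_cast
      rfl
    rw [h1, ev_cl, cl_zero, cl_eq] at hz0
    exact hz0
  have e5 : ∀ᶠ N in UU, L b N ≠ 0 := by
    have h1 : ¬ ∀ᶠ N in UU, L b N = 0 := by
      intro h
      apply hb0
      apply Subtype.ext
      show (b : QS) = 0
      rw [hb1, cl_zero, cl_eq]
      filter_upwards [h] with N hN
      rw [hN, Int.cast_zero]
    exact (Ultrafilter.eventually_not (f := (hyperfilter ℕ : Ultrafilter ℕ))
      (p := fun N => L b N = 0)).2 h1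
  refine ⟨C1 + C2 + E b, ?_⟩
  filter_upwards [e1, e2, e3, e4, e5] with N f1 f2 f3 f4 f5
  have hbase : (1 : ℤ) ≤ ((H N + 2 : ℕ) : ℤ) := by push_cast; omega
  obtain ⟨g, hg⟩ : ∃ g, g = GG.map (mapRingHom (evN ℤ N)) := ⟨_, rfl⟩
  obtain ⟨p, hp⟩ : ∃ p, p = PP.map (evN ℤ N) := ⟨_, rfl⟩
  have hgm : g.Monic := by
    rw [hg]
    exact hGGm.1.map _
  have hpm : p.Monic := by
    rw [hp]
    exact hPPm.1.map _
  have hgd : g.natDegree = D := by
    rw [hg, hGGm.1.natDegree_map, hGGm.2, hG'd]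
  have hpd : p.natDegree = P0.natDegree := by
    rw [hp, hPPm.1.natDegree_map, hPPm.2, hP'd]
  have hgc : ∀ i j, (g.coeff j).coeff i = L ((G'.coeff j).coeff i) N := by
    intro i j
    rw [hg]
    simp only [coeff_map, coe_mapRingHom]
    rw [hGGc]
    rfl
  have hpc : ∀ i, p.coeff i = L (P'.coeff i) N := by
    intro i
    rw [hp]
    simp only [coeff_map]
    rw [hPPc]
    rfl
  rw [hgN, ← hg] at f1 f4
  rw [hpN, ← hp] at f2
  refine ⟨g, p, L b N, hgm, by rw [hgd, hD], fun j => ?_, ?_, hpm, ?_, by rw [hpd]; exact h3, ?_,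
    fun i j => ?_, fun i => ?_, f5, ?_, ?_⟩
  · rw [hgd, natDegree_le_iff_coeff_eq_zero]
    intro i hi'
    rw [hgc]
    have h1 : (G'.coeff j).coeff i = 0 := by
      rw [hG', coeff_scaleRoots, ← C_pow, coeff_mul_C]
      have h2 := M.wt j
      rw [coeff_eq_zero_of_natDegree_lt, zero_mul]
      rw [← hD] at h2
      omega
    rw [h1, hL0]
    rfl
  · refine (mirr_iff (hgm.map _) ?_).1 f1
    rw [hgm.natDegree_map, hgd]
    exact hD1
  · refine (mirr_iff (hpm.map _) ?_).1 f2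
    rw [hpm.natDegree_map, hpd]
    omega
  · rw [lead_map, Polynomial.map_pow, hgN, hpN, ← hg, ← hp, ← lead_map, ← Polynomial.map_pow] at f3
    rw [hgd]
    exact Polynomial.map_injective _ (Int.cast_injective) f3
  · rw [hgc]
    exact (hC1 i j N).trans (pow_le_pow_right₀ hbase (by omega))
  · rw [hpc]
    exact (hC2 i N).trans (pow_le_pow_right₀ hbase (by omega))
  · exact (hb2 N).trans (pow_le_pow_right₀ hbase (by omega))
  · have h1 := map_mapRingHom_evalEval (Int.castRingHom ℚ) g (xs N) (L b N * ws N)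
    have h2 : (Int.castRingHom ℚ) (evalEval (xs N) (L b N * ws N) g) = 0 := by
      rw [← h1]
      exact f4
    have h3 : ((evalEval (xs N) (L b N * ws N) g : ℤ) : ℚ) = 0 := h2
    exact_mod_cast h3

end Pool.Agent.H97.SI
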